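import Mathlib

/-!
# Counting roots of `D_{2n}(z;c) = z(z-1)...(z-2n+1) + (-1)^n c` to the right of `Re z = -1/2`
-/

set_option autoImplicit false

namespace Pool.Agent.V11174.SA

open Polynomial Filter Topology

noncomputable section

/-- The polynomial `D_{2n}(z;c) = ∏_{j=1}^{2n} (z-(j-1)) + (-1)^n c`. -/
def D (n : ℕ) (c : ℝ) : ℂ[X] :=
  (∏ j ∈ Finset.range (2 * n), (X - C (j : ℂ))) + C ((-1) ^ n * (c : ℂ))

/-- The number of roots of `D_{2n}(.;c)` (with multiplicity) with real part `> -1/2`. -/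
def cnt (n : ℕ) (c : ℝ) : ℕ :=
  Multiset.countP (fun z : ℂ => -(1 / 2 : ℝ) < z.re) (D n c).roots

def a (j : ℕ) : ℝ := (j : ℝ) + 1 / 2

def q (n : ℕ) (y : ℝ) : ℂ := ∏ j ∈ Finset.range (2 * n), ((y : ℂ) + (a j : ℂ) * Complex.I)

def S (n : ℕ) (y : ℝ) : ℝ := ∑ j ∈ Finset.range (2 * n), Real.arctan (a j / y)

def R (n : ℕ) (y : ℝ) : ℝ := ∏ j ∈ Finset.range (2 * n), √(a j ^ 2 + y ^ 2)

lemma a_pos (j : ℕ) : 0 < a j := by unfold a; positivity

lemma polar {x : ℝ} (t : ℝ) (hx : 0 < x) : (x : ℂ) + (t : ℂ) * Complex.I =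
    ((√(t ^ 2 + x ^ 2) : ℝ) : ℂ) * Complex.exp (((Real.arctan (t / x) : ℝ) : ℂ) * Complex.I) := by
  have h1 : √(t ^ 2 + x ^ 2) = x * √(1 + (t / x) ^ 2) := by
    rw [show t ^ 2 + x ^ 2 = x ^ 2 * (1 + (t / x) ^ 2) by field_simp; ring,
      Real.sqrt_mul (by positivity), Real.sqrt_sq hx.le]
  have h2 : 0 < √(1 + (t / x) ^ 2) := Real.sqrt_pos.2 (by positivity)
  rw [Complex.exp_mul_I, ← Complex.ofReal_cos, ← Complex.ofReal_sin, Real.cos_arctan,
    Real.sin_arctan, h1]
  apply Complex.ext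
  · simp
    field_simp
  · simp
    field_simp

lemma q_polar (n : ℕ) {y : ℝ} (hy : 0 < y) :
    q n y = ((R n y : ℝ) : ℂ) * Complex.exp (((S n y : ℝ) : ℂ) * Complex.I) := by
  unfold q R S
  rw [Finset.prod_congr rfl (fun j _ => polar (a j) hy), Finset.prod_mul_distrib,
    ← Complex.exp_sum]
  push_cast
  rw [Finset.sum_mul]

lemma R_pos (n : ℕ) (y : ℝ) : 0 < R n y := by
  unfold R
  exact Finset.prod_pos fun j _ => Real.sqrt_pos.2 (by have := a_pos j; positivity)

lemma R_mono (n : ℕ) {y y' : ℝ} (hy : 0 ≤ y) (h : y ≤ y') : R n y ≤ R n y' := by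
  unfold R
  apply Finset.prod_le_prod
  · intro j _; positivity
  · intro j _
    apply Real.sqrt_le_sqrt
    gcongr

lemma S_pos {n : ℕ} (hn : 1 ≤ n) {y : ℝ} (hy : 0 < y) : 0 < S n y := by
  unfold S
  apply Finset.sum_pos
  · intro j _
    exact Real.arctan_pos.2 (div_pos (a_pos j) hy)
  · exact ⟨0, by simp; omega⟩

lemma S_anti {n : ℕ} (hn : 1 ≤ n) {y y' : ℝ} (hy : 0 < y) (h : y < y') : S n y' < S n y := by
  unfold S
  apply Finset.sum_lt_sum_of_nonempty ⟨0, by simp; omega⟩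
  intro j _
  apply Real.arctan_strictMono
  exact div_lt_div_of_pos_left (a_pos j) hy h

lemma S_cont (n : ℕ) {y : ℝ} (hy : 0 < y) : ContinuousAt (S n) y := by
  unfold S
  apply tendsto_finsetSum
  intro j _
  apply (Real.continuous_arctan.continuousAt).comp
  exact continuousAt_const.div continuousAt_id hy.ne'

/-- product over the roots in polar form -/
def A (M : Multiset ℂ) (y : ℝ) : ℝ :=
  (M.map (fun z : ℂ => Real.arctan ((z.im - y) / (z.re + 1 / 2)))).sum

lemma A_cons (z : ℂ) (M : Multiset ℂ) (y : ℝ) :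
    A (z ::ₘ M) y = Real.arctan ((z.im - y) / (z.re + 1 / 2)) + A M y := by
  simp [A]

lemma A_cont (M : Multiset ℂ) : Continuous (A M) := by
  induction M using Multiset.induction_on with
  | empty =>
    have : A 0 = fun _ => (0 : ℝ) := by funext y; simp [A]
    rw [this]; exact continuous_const
  | cons z M ih =>
    have : A (z ::ₘ M) = fun y => Real.arctan ((z.im - y) / (z.re + 1 / 2)) + A M y := by
      funext y; exact A_cons z M y
    rw [this]
    refine Continuous.add ?_ ih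
    exact Real.continuous_arctan.comp ((continuous_const.sub continuous_id).div_const _)

lemma factor_polar (z : ℂ) (y : ℝ) (hz : z.re ≠ -(1 / 2)) :
    ∃ ρ : ℝ, 0 < ρ ∧ ((-(1 / 2) : ℂ) + (y : ℂ) * Complex.I) - z =
      (-1) ^ (if -(1 / 2 : ℝ) < z.re then 1 else 0 : ℕ) * (ρ : ℂ) *
        Complex.exp (((Real.arctan ((z.im - y) / (z.re + 1 / 2)) : ℝ) : ℂ) * Complex.I) := by
  rcases lt_or_gt_of_ne hz with h | h
  · -- left
    have hx : 0 < -(z.re + 1 / 2) := by linarith
    have := polar (y - z.im) hx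
    refine ⟨√((y - z.im) ^ 2 + (-(z.re + 1 / 2)) ^ 2), Real.sqrt_pos.2 (by positivity), ?_⟩
    rw [if_neg (by linarith)]
    have h2 : (z.im - y) / (z.re + 1 / 2) = (y - z.im) / (-(z.re + 1 / 2)) := by
      rw [div_neg, ← neg_div, neg_sub]
    rw [h2, pow_zero, one_mul, ← this]
    apply Complex.ext <;> simp
    ring
  · have hx : 0 < z.re + 1 / 2 := by linarith
    have := polar (z.im - y) hx
    refine ⟨√((z.im - y) ^ 2 + (z.re + 1 / 2) ^ 2), Real.sqrt_pos.2 (by positivity), ?_⟩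
    rw [if_pos h, pow_one, mul_assoc, ← this]
    apply Complex.ext <;> simp
    ring

lemma prod_polar (M : Multiset ℂ) (y : ℝ) (hM : ∀ z ∈ M, z.re ≠ -(1 / 2)) :
    ∃ ρ : ℝ, 0 < ρ ∧ (M.map (fun z => ((-(1 / 2) : ℂ) + (y : ℂ) * Complex.I) - z)).prod =
      (-1) ^ (Multiset.countP (fun z : ℂ => -(1 / 2 : ℝ) < z.re) M) * (ρ : ℂ) *
        Complex.exp (((A M y : ℝ) : ℂ) * Complex.I) := by
  induction M using Multiset.induction_on with
  | empty => exact ⟨1, one_pos, by simp [A]⟩
  | cons z M ih =>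
    obtain ⟨ρ, hρ, h⟩ := ih fun w hw => hM w (Multiset.mem_cons_of_mem hw)
    obtain ⟨ρ', hρ', h'⟩ := factor_polar z y (hM z (Multiset.mem_cons_self z M))
    refine ⟨ρ' * ρ, mul_pos hρ' hρ, ?_⟩
    rw [Multiset.map_cons, Multiset.prod_cons, h, h', A_cons, Multiset.countP_cons, pow_add]
    push_cast
    rw [add_mul, Complex.exp_add]
    ring

lemma tend_arctan_top {d : ℝ} (e : ℝ) (hd : 0 < d) :
    Tendsto (fun y : ℝ => Real.arctan ((e - y) / d)) atTop (𝓝 (-(Real.pi / 2))) := by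
  have h1 : Tendsto (fun y : ℝ => (e - y) / d) atTop atBot := by
    apply Tendsto.atBot_div_const hd
    exact tendsto_atBot_add_const_left _ e tendsto_neg_atTop_atBot
  exact (tendsto_nhds_of_tendsto_nhdsWithin Real.tendsto_arctan_atBot).comp h1

lemma tend_arctan_bot {d : ℝ} (e : ℝ) (hd : 0 < d) :
    Tendsto (fun y : ℝ => Real.arctan ((e - y) / d)) atBot (𝓝 (Real.pi / 2)) := by
  have h1 : Tendsto (fun y : ℝ => (e - y) / d) atBot atTop := by
    apply Tendsto.atTop_div_const hd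
    exact tendsto_atTop_add_const_left _ e tendsto_neg_atBot_atTop
  exact (tendsto_nhds_of_tendsto_nhdsWithin Real.tendsto_arctan_atTop).comp h1

lemma factor_lim (z : ℂ) (hz : z.re ≠ -(1 / 2)) :
    Tendsto (fun y : ℝ => Real.arctan ((z.im - y) / (z.re + 1 / 2))) atTop
      (𝓝 (Real.pi / 2 * (1 - 2 * ((if -(1 / 2 : ℝ) < z.re then 1 else 0 : ℕ) : ℝ)))) ∧
    Tendsto (fun y : ℝ => Real.arctan ((z.im - y) / (z.re + 1 / 2))) atBot
      (𝓝 (-(Real.pi / 2 * (1 - 2 * ((if -(1 / 2 : ℝ) < z.re then 1 else 0 : ℕ) : ℝ))))) := by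
  rcases lt_or_gt_of_ne hz with h | h
  · have hx : 0 < -(z.re + 1 / 2) := by linarith
    have h2 : ∀ y : ℝ, Real.arctan ((z.im - y) / (z.re + 1 / 2)) =
        - Real.arctan ((z.im - y) / (-(z.re + 1 / 2))) := by
      intro y; rw [div_neg, Real.arctan_neg, neg_neg]
    rw [if_neg (by linarith)]
    constructor
    · simp_rw [h2]
      have := (tend_arctan_top z.im hx).neg
      simpa using this
    · simp_rw [h2]
      have := (tend_arctan_bot z.im hx).neg
      simpa using this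
  · have hx : 0 < z.re + 1 / 2 := by linarith
    rw [if_pos h]
    constructor
    · have := tend_arctan_top z.im hx
      convert this using 2
      push_cast; ring
    · have := tend_arctan_bot z.im hx
      convert this using 2
      push_cast; ring

lemma A_lim (M : Multiset ℂ) (hM : ∀ z ∈ M, z.re ≠ -(1 / 2)) :
    Tendsto (A M) atTop (𝓝 (Real.pi / 2 * ((Multiset.card M : ℝ) -
      2 * (Multiset.countP (fun z : ℂ => -(1 / 2 : ℝ) < z.re) M : ℝ)))) ∧
    Tendsto (A M) atBot (𝓝 (-(Real.pi / 2 * ((Multiset.card M : ℝ) -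
      2 * (Multiset.countP (fun z : ℂ => -(1 / 2 : ℝ) < z.re) M : ℝ))))) := by
  induction M using Multiset.induction_on with
  | empty =>
    have : A 0 = fun _ => (0 : ℝ) := by funext y; simp [A]
    rw [this]
    simp
  | cons z M ih =>
    obtain ⟨h1, h2⟩ := ih fun w hw => hM w (Multiset.mem_cons_of_mem hw)
    obtain ⟨h3, h4⟩ := factor_lim z (hM z (Multiset.mem_cons_self z M))
    have : A (z ::ₘ M) = fun y => Real.arctan ((z.im - y) / (z.re + 1 / 2)) + A M y := by
      funext y; exact A_cons z M y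
    rw [this, Multiset.countP_cons, Multiset.card_cons]
    constructor
    · convert h3.add h1 using 2
      push_cast; ring
    · convert h4.add h2 using 2
      push_cast; ring

/-- A continuous function whose sine vanishes identically is constant. -/
lemma const_of_sin {f : ℝ → ℝ} (hf : Continuous f) (h : ∀ x, Real.sin (f x) = 0) (x y : ℝ) :
    f x = f y := by
  by_contra hne
  wlog hlt : f x < f y generalizing x y with H
  · exact H y x (Ne.symm hne) (lt_of_le_of_ne (not_lt.1 hlt) (Ne.symm hne))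
  obtain ⟨k, hk⟩ := Real.sin_eq_zero_iff.1 (h x)
  obtain ⟨l, hl⟩ := Real.sin_eq_zero_iff.1 (h y)
  have hkl : k < l := by
    by_contra h'
    have : (l : ℝ) ≤ k := by exact_mod_cast not_lt.1 h'
    have := mul_le_mul_of_nonneg_right this Real.pi_pos.le
    linarith
  have hkl' : (k : ℝ) + 1 ≤ l := by exact_mod_cast hkl
  have hmem : f x + Real.pi / 2 ∈ Set.Icc (f x) (f y) := by
    constructor
    · linarith [Real.pi_pos]
    · have := mul_le_mul_of_nonneg_right hkl' Real.pi_pos.le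
      linarith [Real.pi_pos]
  have hiv : Set.Icc (f x) (f y) ⊆ f '' Set.uIcc x y := by
    have := intermediate_value_uIcc (f := f) (a := x) (b := y) hf.continuousOn
    rwa [Set.uIcc_of_le hlt.le] at this
  obtain ⟨z, -, hz⟩ := hiv hmem
  have h3 := h z
  rw [hz, ← hk, Real.sin_add_pi_div_two, Real.cos_int_mul_pi] at h3
  have : ((-1 : ℝ) ^ k) ^ 2 = 1 := by
    rw [← zpow_natCast, ← zpow_mul]
    have : Even (k * ((2 : ℕ) : ℤ)) := ⟨k, by push_cast; ring⟩
    exact this.neg_one_zpow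
  rw [h3] at this
  norm_num at this

end

end Pool.Agent.V11174.SA
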