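import Pool.Agent.V11174.SA.Lower

/-!
# The lower bound for `2 ≤ n ≤ 15` by exact integer arithmetic
-/

set_option autoImplicit false

namespace Pool.Agent.V11174.SA

open Filter Topology

noncomputable section

/-- Gaussian integer product `∏_{j<m} (2Y + M(2j+1) i)`. -/
def qz (Y M : ℤ) : ℕ → ℤ × ℤ
  | 0 => (1, 0)
  | j + 1 => ((qz Y M j).1 * (2 * Y) - (qz Y M j).2 * (M * (2 * j + 1)),
      (qz Y M j).1 * (M * (2 * j + 1)) + (qz Y M j).2 * (2 * Y))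

/-- The squared modulus of the product. -/
def pr (Y M : ℕ) : ℕ → ℕ
  | 0 => 1
  | j + 1 => pr Y M j * (4 * Y ^ 2 + (M * (2 * j + 1)) ^ 2)

lemma qz_eq (Y M : ℤ) (hM : M ≠ 0) (m : ℕ) :
    (((qz Y M m).1 : ℂ) + ((qz Y M m).2 : ℂ) * Complex.I) =
      (2 * (M : ℂ)) ^ m * ∏ j ∈ Finset.range m,
        ((((Y : ℝ) / (M : ℝ) : ℝ) : ℂ) + (a j : ℂ) * Complex.I) := by
  have hM' : (M : ℂ) ≠ 0 := by exact_mod_cast hM
  induction m with
  | zero => simp [qz]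
  | succ m ih =>
    rw [Finset.prod_range_succ, pow_succ]
    have h1 : (2 * (M : ℂ)) * ((((Y : ℝ) / (M : ℝ) : ℝ) : ℂ) + (a m : ℂ) * Complex.I) =
        2 * (Y : ℂ) + (M : ℂ) * (2 * m + 1) * Complex.I := by
      unfold a
      push_cast
      field_simp
    calc _ = (((qz Y M m).1 : ℂ) + ((qz Y M m).2 : ℂ) * Complex.I) *
          (2 * (Y : ℂ) + (M : ℂ) * (2 * m + 1) * Complex.I) := by
          simp only [qz]
          push_cast
          linear_combination (-(((qz Y M m).2 : ℂ) * (M : ℂ) * (2 * m + 1))) * Complex.I_mul_I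
      _ = _ := by rw [ih, ← h1]; ring

lemma pr_eq (Y M : ℕ) (hM : M ≠ 0) (m : ℕ) :
    (pr Y M m : ℝ) = (2 * (M : ℝ)) ^ (2 * m) *
      (∏ j ∈ Finset.range m, √(a j ^ 2 + ((Y : ℝ) / M) ^ 2)) ^ 2 := by
  have hM' : (M : ℝ) ≠ 0 := by exact_mod_cast hM
  induction m with
  | zero => simp [pr]
  | succ m ih =>
    have hs := Real.sq_sqrt (show 0 ≤ a m ^ 2 + ((Y : ℝ) / M) ^ 2 by positivity)
    rw [Finset.prod_range_succ]
    set P := ∏ j ∈ Finset.range m, √(a j ^ 2 + ((Y : ℝ) / M) ^ 2)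
    have e1 : (P * √(a m ^ 2 + ((Y : ℝ) / M) ^ 2)) ^ 2 = P ^ 2 * (a m ^ 2 + ((Y : ℝ) / M) ^ 2) := by
      rw [mul_pow P, hs]
    rw [e1]
    simp only [pr]
    push_cast
    rw [ih, show 2 * (m + 1) = 2 * m + 2 by ring, pow_add (2 * (M : ℝ)) (2 * m) 2]
    unfold a
    field_simp
    ring

/-- The check. -/
def chk (n Y M : ℕ) : Prop :=
  (qz Y M (2 * n)).2 ≤ 0 ∧
    (2 * M * (2 * n ^ 2 * 1000000)) ^ (4 * n) < 3141592 ^ (4 * n) * pr Y M (2 * n)

instance (n Y M : ℕ) : Decidable (chk n Y M) := by unfold chk; infer_instance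

lemma lower_of_chk {n Y M : ℕ} (hn : 1 ≤ n) (hY : 0 < Y) (hM : 0 < M) (h : chk n Y M)
    {y : ℝ} (hy : 0 < y) (hS : S n y = Real.pi) :
    2 * (n : ℝ) ^ 2 / Real.pi < (R n y) ^ (1 / (2 * (n : ℝ))) := by
  obtain ⟨h1, h2⟩ := h
  set y0 : ℝ := (Y : ℝ) / M with hy0
  have hY' : (0 : ℝ) < Y := by exact_mod_cast hY
  have hM' : (0 : ℝ) < M := by exact_mod_cast hM
  have hn' : (0 : ℝ) < n := by exact_mod_cast hn
  have hy0pos : 0 < y0 := div_pos hY' hM'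
  -- S n y0 ≥ π
  have h3 : Real.pi ≤ S n y0 := by
    by_contra h4
    have h4 := not_le.1 h4
    have h5 : 0 < Real.sin (S n y0) := Real.sin_pos_of_pos_of_lt_pi (S_pos hn hy0pos) h4
    have h6 := qz_eq (Y : ℤ) (M : ℤ) (by exact_mod_cast hM.ne') (2 * n)
    have h7 : ∏ j ∈ Finset.range (2 * n),
        (((((Y : ℤ) : ℝ) / ((M : ℤ) : ℝ) : ℝ) : ℂ) + (a j : ℂ) * Complex.I) = q n y0 := by
      unfold q
      rw [hy0]
      push_cast
      rfl
    rw [h7, q_polar n hy0pos] at h6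
    have h8 := congrArg Complex.im h6
    have h9 : (2 * (((M : ℤ)) : ℂ)) ^ (2 * n) = (((2 * (M : ℝ)) ^ (2 * n) : ℝ) : ℂ) := by
      push_cast; rfl
    rw [h9, Complex.im_ofReal_mul, Complex.im_ofReal_mul, Complex.exp_ofReal_mul_I_im] at h8
    have h10 : ((((qz (Y : ℤ) (M : ℤ) (2 * n)).1 : ℂ) +
        ((qz (Y : ℤ) (M : ℤ) (2 * n)).2 : ℂ) * Complex.I)).im =
        ((qz (Y : ℤ) (M : ℤ) (2 * n)).2 : ℝ) := by
      simp
    rw [h10] at h8
    have h11 : ((qz (Y : ℤ) (M : ℤ) (2 * n)).2 : ℝ) ≤ 0 := by exact_mod_cast h1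
    have h12 : 0 < (2 * (M : ℝ)) ^ (2 * n) * (R n y0 * Real.sin (S n y0)) :=
      mul_pos (by positivity) (mul_pos (R_pos n y0) h5)
    linarith
  have h13 : y0 ≤ y := by
    by_contra h4
    have := S_anti hn hy (not_le.1 h4)
    linarith
  have h14 : R n y0 ≤ R n y := R_mono n hy0pos.le h13
  have h15 := pr_eq Y M hM.ne' (2 * n)
  have h16 : ((2 * M * (2 * n ^ 2 * 1000000) : ℕ) : ℝ) ^ (4 * n) <
      (3141592 : ℝ) ^ (4 * n) * (pr Y M (2 * n) : ℝ) := by exact_mod_cast h2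
  rw [h15] at h16
  have h17 : ∏ j ∈ Finset.range (2 * n), √(a j ^ 2 + ((Y : ℝ) / M) ^ 2) = R n y0 := rfl
  rw [h17] at h16
  push_cast at h16
  have hRpos := R_pos n y0
  -- compare with the power
  have h18 : (2 * (n : ℝ) ^ 2 / 3.141592) ^ (4 * n) < R n y0 ^ 2 := by
    have e1 : (2 * (M : ℝ) * (2 * (n : ℝ) ^ 2 * 1000000)) ^ (4 * n) =
        (2 * (M : ℝ)) ^ (4 * n) * ((3141592 : ℝ) ^ (4 * n) * (2 * (n : ℝ) ^ 2 / 3.141592) ^ (4 * n)) := by
      rw [← mul_pow, ← mul_pow]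
      congr 1
      ring
    have e2 : 2 * (2 * n) = 4 * n := by ring
    rw [e1, e2] at h16
    have e3 : (0 : ℝ) < (2 * (M : ℝ)) ^ (4 * n) := by positivity
    have e4 : (0 : ℝ) < (3141592 : ℝ) ^ (4 * n) := by positivity
    have h19 : (2 * (M : ℝ)) ^ (4 * n) * (3141592 : ℝ) ^ (4 * n) *
        (2 * (n : ℝ) ^ 2 / 3.141592) ^ (4 * n) <
        (2 * (M : ℝ)) ^ (4 * n) * (3141592 : ℝ) ^ (4 * n) * R n y0 ^ 2 := by
      calc _ = (2 * (M : ℝ)) ^ (4 * n) * ((3141592 : ℝ) ^ (4 * n) * (2 * (n : ℝ) ^ 2 / 3.141592) ^ (4 * n)) := by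
            ring
        _ < _ := h16
        _ = _ := by ring
    exact lt_of_mul_lt_mul_left h19 (by positivity)
  have h20 : 2 * (n : ℝ) ^ 2 / Real.pi ≤ 2 * (n : ℝ) ^ 2 / 3.141592 := by
    apply div_le_div_of_nonneg_left (by positivity) (by norm_num)
    exact Real.pi_gt_d6.le
  have h21 : (2 * (n : ℝ) ^ 2 / Real.pi) ^ (4 * n) < R n y ^ 2 := by
    calc _ ≤ (2 * (n : ℝ) ^ 2 / 3.141592) ^ (4 * n) :=
          pow_le_pow_left₀ (div_nonneg (by positivity) Real.pi_pos.le) h20 _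
      _ < R n y0 ^ 2 := h18
      _ ≤ R n y ^ 2 := pow_le_pow_left₀ hRpos.le h14 2
  have h22 : (2 * (n : ℝ) ^ 2 / Real.pi) ^ (2 * n) < R n y := by
    have e : (2 * (n : ℝ) ^ 2 / Real.pi) ^ (4 * n) = ((2 * (n : ℝ) ^ 2 / Real.pi) ^ (2 * n)) ^ 2 := by
      rw [← pow_mul]; congr 1; ring
    rw [e] at h21
    exact lt_of_pow_lt_pow_left₀ 2 (R_pos n y).le h21
  have h23 : 0 ≤ 2 * (n : ℝ) ^ 2 / Real.pi := div_nonneg (by positivity) Real.pi_pos.le
  have h24 : 2 * (n : ℝ) ^ 2 / Real.pi =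
      ((2 * (n : ℝ) ^ 2 / Real.pi) ^ (2 * n)) ^ (1 / (2 * (n : ℝ))) := by
    generalize 2 * (n : ℝ) ^ 2 / Real.pi = t at h23
    rw [← Real.rpow_natCast, ← Real.rpow_mul h23]
    have : ((2 * n : ℕ) : ℝ) * (1 / (2 * (n : ℝ))) = 1 := by push_cast; field_simp
    rw [this, Real.rpow_one]
  rw [h24]
  exact Real.rpow_lt_rpow (by positivity) h22 (by positivity)

theorem lower_small {n : ℕ} (hn : 2 ≤ n) (hn2 : n < 16) {y : ℝ} (hy : 0 < y)
    (hS : S n y = Real.pi) :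
    2 * (n : ℝ) ^ 2 / Real.pi < (R n y) ^ (1 / (2 * (n : ℝ))) := by
  have hn1 : 1 ≤ n := by omega
  obtain ⟨Y, hY, h⟩ : ∃ Y : ℕ, 0 < Y ∧ chk n Y 1000 := by
    interval_cases n
    · exact ⟨1658, by norm_num, by decide +kernel⟩
    · exact ⟨4761, by norm_num, by decide +kernel⟩
    · exact ⟨9185, by norm_num, by decide +kernel⟩
    · exact ⟨14899, by norm_num, by decide +kernel⟩
    · exact ⟨21892, by norm_num, by decide +kernel⟩
    · exact ⟨30163, by norm_num, by decide +kernel⟩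
    · exact ⟨39708, by norm_num, by decide +kernel⟩
    · exact ⟨50528, by norm_num, by decide +kernel⟩
    · exact ⟨62622, by norm_num, by decide +kernel⟩
    · exact ⟨75990, by norm_num, by decide +kernel⟩
    · exact ⟨90631, by norm_num, by decide +kernel⟩
    · exact ⟨106546, by norm_num, by decide +kernel⟩
    · exact ⟨123734, by norm_num, by decide +kernel⟩
    · exact ⟨142195, by norm_num, by decide +kernel⟩
  exact lower_of_chk hn1 hY (by norm_num) h hy hS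

theorem lower {n : ℕ} (hn : 2 ≤ n) {y : ℝ} (hy : 0 < y) (hS : S n y = Real.pi) :
    2 * (n : ℝ) ^ 2 / Real.pi < (R n y) ^ (1 / (2 * (n : ℝ))) := by
  rcases lt_or_ge n 16 with h | h
  · exact lower_small hn h hy hS
  · exact lower_large h hy hS

end

end Pool.Agent.V11174.SA
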