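import Pool.Agent.V11174.SA.Gen
import Pool.Agent.V11174.SA.Numeric

/-!
# The set `{c | cnt n c = n}` is the half-line `[R(y_n), ∞)`
-/

set_option autoImplicit false

namespace Pool.Agent.V11174.SA

open Polynomial Filter Topology

noncomputable section

lemma S_eq (n : ℕ) (y : ℝ) : S n y = Ss (1 / 2) n y := rfl

lemma R_eq (n : ℕ) (y : ℝ) : R n y = Rs (1 / 2) n y := rfl

lemma cnt_eq (n : ℕ) (c : ℝ) : cnt n c = cnts (1 / 2) n c := rfl

lemma exists_s (n : ℕ) (c : ℝ) (P : ℝ → Prop) (hP : ∀ᶠ s in 𝓝[<] (1 / 2 : ℝ), P s) :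
    ∃ s, 0 < s ∧ s < 1 / 2 ∧ P s ∧ (∀ z ∈ (D n c).roots, z.re ≠ -s) ∧ cnts s n c = cnt n c := by
  have h1 : ∀ᶠ s in 𝓝[<] (1 / 2 : ℝ), ∀ z ∈ (D n c).roots.toFinset,
      (-(1 / 2 : ℝ) < z.re → -s < z.re) := by
    rw [Filter.eventually_all_finset]
    intro z _
    by_cases hz : -(1 / 2 : ℝ) < z.re
    · have : ∀ᶠ s in 𝓝[<] (1 / 2 : ℝ), -z.re < s :=
        (lt_mem_nhds (by linarith : -z.re < 1 / 2)).filter_mono nhdsWithin_le_nhds
      filter_upwards [this] with s hs _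
      linarith
    · exact Eventually.of_forall fun s h => absurd h hz
  have h2 : ∀ᶠ s in 𝓝[<] (1 / 2 : ℝ), 0 < s :=
    (lt_mem_nhds (by norm_num : (0 : ℝ) < 1 / 2)).filter_mono nhdsWithin_le_nhds
  have h3 : ∀ᶠ s in 𝓝[<] (1 / 2 : ℝ), s < 1 / 2 := eventually_mem_nhdsWithin
  obtain ⟨s, hs1, hs2, hs3, hs4⟩ := (h1.and (h2.and (h3.and hP))).exists
  refine ⟨s, hs2, hs3, hs4, ?_, ?_⟩
  · intro z hz h
    have h5 := hs1 z (Multiset.mem_toFinset.2 hz)
    rcases lt_or_ge (-(1 / 2 : ℝ)) z.re with h6 | h6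
    · have := h5 h6
      linarith
    · linarith
  · unfold cnts cnt
    apply Multiset.countP_congr rfl
    intro z hz
    have h5 := hs1 z (Multiset.mem_toFinset.2 hz)
    apply propext
    constructor
    · intro h; linarith
    · exact h5

lemma Ss_lt_S {s : ℝ} (hs2 : s < 1 / 2) {n : ℕ} (hn : 1 ≤ n) {y : ℝ} (hy : 0 < y) :
    Ss s n y < S n y := by
  unfold Ss S
  apply Finset.sum_lt_sum_of_nonempty ⟨0, by simp; omega⟩
  intro j _
  apply Real.arctan_strictMono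
  apply div_lt_div_of_pos_right _ hy
  unfold as a
  linarith

lemma Rs_lt_R {s : ℝ} (hs : 0 < s) (hs2 : s < 1 / 2) {n : ℕ} (hn : 1 ≤ n) (y : ℝ) :
    Rs s n y < R n y := by
  unfold Rs R
  apply Finset.prod_lt_prod_of_nonempty
  · intro j _
    exact Real.sqrt_pos.2 (by have := as_pos hs j; positivity)
  · intro j _
    apply Real.sqrt_lt_sqrt (by positivity)
    have h1 := as_pos hs j
    have h2 : as s j < a j := by unfold as a; linarith
    have : as s j ^ 2 < a j ^ 2 := pow_lt_pow_left₀ h2 h1.le (by norm_num)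
    linarith
  · exact ⟨0, by simp; omega⟩

lemma Ss_lt_pi (s : ℝ) (n : ℕ) (hn : 1 ≤ n) (y : ℝ) : Ss s n y < n * Real.pi := by
  unfold Ss
  have h : ∑ j ∈ Finset.range (2 * n), Real.arctan (as s j / y) <
      ∑ j ∈ Finset.range (2 * n), Real.pi / 2 := by
    apply Finset.sum_lt_sum_of_nonempty ⟨0, by simp; omega⟩
    intro j _
    exact Real.arctan_lt_pi_div_two _
  rw [Finset.sum_const, Finset.card_range, nsmul_eq_mul] at h
  push_cast at h
  linarith

lemma Ss_tendsto (s : ℝ) (n : ℕ) : Tendsto (Ss s n) atTop (𝓝 0) := by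
  have : (0 : ℝ) = ∑ j ∈ Finset.range (2 * n), 0 := by simp
  rw [this]
  unfold Ss
  apply tendsto_finsetSum
  intro j _
  have h3 : Tendsto (fun y : ℝ => as s j / y) atTop (𝓝 0) := tendsto_const_nhds.div_atTop tendsto_id
  have h4 := (Real.continuous_arctan.tendsto 0).comp h3
  rw [Real.arctan_zero] at h4
  exact h4

lemma exists_of_gt (s : ℝ) (n : ℕ) {y' : ℝ} (hy' : 0 < y') (h : Real.pi < Ss s n y') :
    ∃ y, y' ≤ y ∧ Ss s n y = Real.pi := by
  have h3 : ∀ᶠ y in atTop, Ss s n y < Real.pi :=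
    (Ss_tendsto s n).eventually (gt_mem_nhds Real.pi_pos)
  obtain ⟨y2, h4, h5⟩ := (h3.and (eventually_gt_atTop y')).exists
  have h6 : Real.pi ∈ Set.Icc (Ss s n y2) (Ss s n y') := ⟨h4.le, h.le⟩
  have hc : ContinuousOn (Ss s n) (Set.Icc y' y2) := by
    intro y hy
    exact (Ss_cont s n (by linarith [hy.1])).continuousWithinAt
  obtain ⟨y3, h7, h8⟩ := intermediate_value_Icc' h5.le hc h6
  exact ⟨y3, h7.1, h8⟩

lemma R_cont (n : ℕ) : Continuous (R n) := by
  unfold R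
  fun_prop

lemma Rs_cont_s (n : ℕ) (y : ℝ) : Continuous (fun s => Rs s n y) := by
  unfold Rs as
  fun_prop

lemma Ss_cont_s (n : ℕ) (y : ℝ) : Continuous (fun s => Ss s n y) := by
  unfold Ss as
  apply continuous_finsetSum
  intro j _
  exact Real.continuous_arctan.comp ((continuous_const.add continuous_id).div_const _)

theorem set_eq {n : ℕ} (hn : 1 ≤ n) {y₀ : ℝ} (hy₀ : 0 < y₀) (hS : S n y₀ = Real.pi) :
    {c : ℝ | cnt n c = n} = Set.Ici (R n y₀) := by
  ext c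
  rw [Set.mem_ofPred_eq, Set.mem_Ici]
  constructor
  · intro hcnt
    by_contra hlt
    have hlt := not_le.1 hlt
    -- choose y' < y₀ with c < R n y'
    have e1 : ∀ᶠ y in 𝓝[<] y₀, c < R n y :=
      ((R_cont n).continuousAt.eventually (lt_mem_nhds hlt)).filter_mono nhdsWithin_le_nhds
    have e2 : ∀ᶠ y in 𝓝[<] y₀, 0 < y := (lt_mem_nhds hy₀).filter_mono nhdsWithin_le_nhds
    have e3 : ∀ᶠ y in 𝓝[<] y₀, y < y₀ := eventually_mem_nhdsWithin
    obtain ⟨y', f1, f2, f3⟩ := (e1.and (e2.and e3)).exists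
    have f4 : Real.pi < S n y' := by rw [← hS]; exact S_anti hn f2 f3
    have g1 : ∀ᶠ s in 𝓝[<] (1 / 2 : ℝ), c < Rs s n y' :=
      ((Rs_cont_s n y').continuousAt.eventually (lt_mem_nhds f1)).filter_mono nhdsWithin_le_nhds
    have g2 : ∀ᶠ s in 𝓝[<] (1 / 2 : ℝ), Real.pi < Ss s n y' :=
      ((Ss_cont_s n y').continuousAt.eventually (lt_mem_nhds f4)).filter_mono nhdsWithin_le_nhds
    obtain ⟨s, hs, hs2, ⟨hP1, hP2⟩, hroots, hcs⟩ := exists_s n c _ (g1.and g2)
    obtain ⟨ys, h1, h2⟩ := exists_of_gt s n f2 hP2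
    have h3 : c < Rs s n ys := lt_of_lt_of_le hP1 (Rs_mono s n f2.le h1)
    exact cnt_ne hs hn (f2.trans_le h1) h2 h3 hroots (by rw [hcs, hcnt])
  · intro hc
    obtain ⟨s, hs, hs2, -, hroots, hcs⟩ := exists_s n c (fun _ => True) (by simp)
    rw [← hcs]
    have hγ : ∀ y, 0 < y → Real.pi ≤ Ss s n y → Rs s n y ≤ Rs s n y₀ := by
      intro y hy hSy
      apply Rs_mono s n hy.le
      by_contra h
      have h1 := S_anti hn hy₀ (not_le.1 h)
      have h2 := Ss_lt_S hs2 hn hy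
      linarith
    exact cnt_eq_of_gt hs hn hγ (Rs_mono s n le_rfl hy₀.le)
      (lt_of_lt_of_le (Rs_lt_R hs hs2 hn y₀) hc)

lemma R_one_zero : R 1 0 = 3 / 4 := by
  unfold R a
  rw [show 2 * 1 = 2 by norm_num, Finset.prod_range_succ, Finset.prod_range_one]
  rw [show ((((0 : ℕ) : ℝ) + 1/2)^2 + 0^2) = (1/2)^2 by norm_num,
    show ((((1 : ℕ) : ℝ) + 1/2)^2 + (0 : ℝ)^2) = (3/2)^2 by norm_num,
    Real.sqrt_sq (by norm_num), Real.sqrt_sq (by norm_num)]
  norm_num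

theorem set_eq_one : {c : ℝ | cnt 1 c = 1} = Set.Ici (3 / 4) := by
  ext c
  rw [Set.mem_ofPred_eq, Set.mem_Ici]
  constructor
  · intro hcnt
    by_contra hlt
    have hlt := not_le.1 hlt
    rw [← R_one_zero] at hlt
    have g1 : ∀ᶠ s in 𝓝[<] (1 / 2 : ℝ), c < Rs s 1 0 :=
      ((Rs_cont_s 1 0).continuousAt.eventually (lt_mem_nhds hlt)).filter_mono nhdsWithin_le_nhds
    obtain ⟨s, hs, hs2, hP1, hroots, hcs⟩ := exists_s 1 c _ g1
    have hcnt' : cnts s 1 c = 1 := by rw [hcs, hcnt]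
    obtain ⟨l1, hA0⟩ := As_odd le_rfl c hroots hcnt'
    obtain ⟨ρ, hρ, hr, hi⟩ := w_trig le_rfl c hroots hcnt' 0
    rw [hA0, Real.cos_zero, q_zero hs, Complex.add_re, Complex.ofReal_re,
      Complex.ofReal_re] at hr
    norm_num at hr
    linarith
  · intro hc
    obtain ⟨s, hs, hs2, -, hroots, hcs⟩ := exists_s 1 c (fun _ => True) (by simp)
    rw [← hcs]
    have hγ : ∀ y, 0 < y → Real.pi ≤ Ss s 1 y → Rs s 1 y ≤ Rs s 1 0 := by
      intro y hy hSy
      have := Ss_lt_pi s 1 le_rfl y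
      push_cast at this
      linarith
    have h1 := Rs_lt_R hs hs2 le_rfl (n := 1) 0
    rw [R_one_zero] at h1
    exact cnt_eq_of_gt hs le_rfl hγ le_rfl (lt_of_lt_of_le h1 hc)

lemma exists_y {n : ℕ} (hn : 2 ≤ n) : ∃ y : ℝ, 0 < y ∧ S n y = Real.pi := by
  have h1 : Real.pi ≤ S n (1/2) := by
    unfold S
    have h : ∑ j ∈ Finset.range (2 * n), Real.pi / 4 ≤
        ∑ j ∈ Finset.range (2 * n), Real.arctan (a j / (1/2)) := by
      apply Finset.sum_le_sum
      intro j _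
      rw [← Real.arctan_one]
      apply Real.arctan_strictMono.monotone
      unfold a
      have : (0 : ℝ) ≤ j := by positivity
      linarith
    rw [Finset.sum_const, Finset.card_range, nsmul_eq_mul] at h
    push_cast at h
    have hn' : (2 : ℝ) ≤ n := by exact_mod_cast hn
    nlinarith [Real.pi_pos]
  rcases eq_or_lt_of_le h1 with h | h
  · exact ⟨1 / 2, by norm_num, h.symm⟩
  · obtain ⟨y, h2, h3⟩ := exists_of_gt (1 / 2) n (y' := 1 / 2) (by norm_num) h
    exact ⟨y, by linarith, h3⟩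

/-- The final statement. -/
theorem final (n : ℕ) (hn : 1 ≤ n) : ∃ cn : ℝ, 0 < cn ∧ {c : ℝ | cnt n c = n} = Set.Ici cn ∧
    2 * (n : ℝ) ^ 2 / Real.pi < cn ^ (1 / (2 * (n : ℝ))) ∧
    cn ^ (1 / (2 * (n : ℝ))) < n / Real.sin (Real.pi / (2 * n)) := by
  rcases eq_or_lt_of_le hn with h | h
  · subst h
    refine ⟨3 / 4, by norm_num, set_eq_one, ?_, ?_⟩
    · push_cast
      rw [show (1 : ℝ) / (2 * 1) = 1 / 2 by norm_num, ← Real.sqrt_eq_rpow]
      rw [div_lt_iff₀ Real.pi_pos]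
      have h1 : (0.85 : ℝ) < √(3 / 4) := by
        apply Real.lt_sqrt_of_sq_lt
        norm_num
      have h2 := Real.pi_gt_three
      nlinarith
    · push_cast
      rw [show (1 : ℝ) / (2 * 1) = 1 / 2 by norm_num, ← Real.sqrt_eq_rpow, mul_one,
        Real.sin_pi_div_two, div_one, Real.sqrt_lt' one_pos]
      norm_num
  · obtain ⟨y, hy, hS⟩ := exists_y h
    exact ⟨R n y, R_pos n y, set_eq hn hy hS, lower h hy hS, upper h hy hS⟩

end

end Pool.Agent.V11174.SA
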