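import Pool.Agent.V11174.SA.Count

/-!
# The threshold `c_n`: counting roots to the right of `Re z = -s`, and the limit `s → 1/2`
-/

set_option autoImplicit false

namespace Pool.Agent.V11174.SA

open Polynomial Filter Topology

noncomputable section

def as (s : ℝ) (j : ℕ) : ℝ := (j : ℝ) + s

def qs (s : ℝ) (n : ℕ) (y : ℝ) : ℂ :=
  ∏ j ∈ Finset.range (2 * n), ((y : ℂ) + (as s j : ℂ) * Complex.I)

def Ss (s : ℝ) (n : ℕ) (y : ℝ) : ℝ := ∑ j ∈ Finset.range (2 * n), Real.arctan (as s j / y)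

def Rs (s : ℝ) (n : ℕ) (y : ℝ) : ℝ := ∏ j ∈ Finset.range (2 * n), √(as s j ^ 2 + y ^ 2)

/-- The number of roots with real part `> -s`. -/
def cnts (s : ℝ) (n : ℕ) (c : ℝ) : ℕ :=
  Multiset.countP (fun z : ℂ => -s < z.re) (D n c).roots

lemma as_pos {s : ℝ} (hs : 0 < s) (j : ℕ) : 0 < as s j := by unfold as; positivity

lemma qs_polar (s : ℝ) (n : ℕ) {y : ℝ} (hy : 0 < y) :
    qs s n y = ((Rs s n y : ℝ) : ℂ) * Complex.exp (((Ss s n y : ℝ) : ℂ) * Complex.I) := by
  unfold qs Rs Ss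
  rw [Finset.prod_congr rfl (fun j _ => polar (as s j) hy), Finset.prod_mul_distrib,
    ← Complex.exp_sum]
  push_cast
  rw [Finset.sum_mul]

lemma Rs_pos {s : ℝ} (hs : 0 < s) (n : ℕ) (y : ℝ) : 0 < Rs s n y := by
  unfold Rs
  exact Finset.prod_pos fun j _ => Real.sqrt_pos.2 (by have := as_pos hs j; positivity)

lemma Rs_mono (s : ℝ) (n : ℕ) {y y' : ℝ} (hy : 0 ≤ y) (h : y ≤ y') : Rs s n y ≤ Rs s n y' := by
  unfold Rs
  apply Finset.prod_le_prod
  · intro j _; positivity
  · intro j _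
    apply Real.sqrt_le_sqrt
    gcongr

lemma Ss_pos {s : ℝ} (hs : 0 < s) {n : ℕ} (hn : 1 ≤ n) {y : ℝ} (hy : 0 < y) : 0 < Ss s n y := by
  unfold Ss
  apply Finset.sum_pos
  · intro j _
    exact Real.arctan_pos.2 (div_pos (as_pos hs j) hy)
  · exact ⟨0, by simp; omega⟩

lemma Ss_anti {s : ℝ} (hs : 0 < s) {n : ℕ} (hn : 1 ≤ n) {y y' : ℝ} (hy : 0 < y) (h : y < y') :
    Ss s n y' < Ss s n y := by
  unfold Ss
  apply Finset.sum_lt_sum_of_nonempty ⟨0, by simp; omega⟩
  intro j _
  apply Real.arctan_strictMono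
  exact div_lt_div_of_pos_left (as_pos hs j) hy h

lemma Ss_cont (s : ℝ) (n : ℕ) {y : ℝ} (hy : 0 < y) : ContinuousAt (Ss s n) y := by
  unfold Ss
  apply tendsto_finsetSum
  intro j _
  apply (Real.continuous_arctan.continuousAt).comp
  exact continuousAt_const.div continuousAt_id hy.ne'

/-- argument sum over the roots -/
def As (s : ℝ) (M : Multiset ℂ) (y : ℝ) : ℝ :=
  (M.map (fun z : ℂ => Real.arctan ((z.im - y) / (z.re + s)))).sum

lemma As_cons (s : ℝ) (z : ℂ) (M : Multiset ℂ) (y : ℝ) :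
    As s (z ::ₘ M) y = Real.arctan ((z.im - y) / (z.re + s)) + As s M y := by
  simp [As]

lemma As_cont (s : ℝ) (M : Multiset ℂ) : Continuous (As s M) := by
  induction M using Multiset.induction_on with
  | empty =>
    have : As s 0 = fun _ => (0 : ℝ) := by funext y; simp [As]
    rw [this]; exact continuous_const
  | cons z M ih =>
    have : As s (z ::ₘ M) = fun y => Real.arctan ((z.im - y) / (z.re + s)) + As s M y := by
      funext y; exact As_cons s z M y
    rw [this]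
    refine Continuous.add ?_ ih
    exact Real.continuous_arctan.comp ((continuous_const.sub continuous_id).div_const _)

lemma factor_polar' {s : ℝ} (z : ℂ) (y : ℝ) (hz : z.re ≠ -s) :
    ∃ ρ : ℝ, 0 < ρ ∧ ((-(s : ℂ)) + (y : ℂ) * Complex.I) - z =
      (-1) ^ (if -s < z.re then 1 else 0 : ℕ) * (ρ : ℂ) *
        Complex.exp (((Real.arctan ((z.im - y) / (z.re + s)) : ℝ) : ℂ) * Complex.I) := by
  rcases lt_or_gt_of_ne hz with h | h
  · -- left
    have hx : 0 < -(z.re + s) := by linarith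
    have := polar (y - z.im) hx
    refine ⟨√((y - z.im) ^ 2 + (-(z.re + s)) ^ 2), Real.sqrt_pos.2 (by positivity), ?_⟩
    rw [if_neg (by linarith)]
    have h2 : (z.im - y) / (z.re + s) = (y - z.im) / (-(z.re + s)) := by
      rw [div_neg, ← neg_div, neg_sub]
    rw [h2, pow_zero, one_mul, ← this]
    apply Complex.ext <;> simp
    ring
  · have hx : 0 < z.re + s := by linarith
    have := polar (z.im - y) hx
    refine ⟨√((z.im - y) ^ 2 + (z.re + s) ^ 2), Real.sqrt_pos.2 (by positivity), ?_⟩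
    rw [if_pos h, pow_one, mul_assoc, ← this]
    apply Complex.ext <;> simp
    ring

lemma prod_polar' {s : ℝ} (M : Multiset ℂ) (y : ℝ) (hM : ∀ z ∈ M, z.re ≠ -s) :
    ∃ ρ : ℝ, 0 < ρ ∧ (M.map (fun z => ((-(s : ℂ)) + (y : ℂ) * Complex.I) - z)).prod =
      (-1) ^ (Multiset.countP (fun z : ℂ => -s < z.re) M) * (ρ : ℂ) *
        Complex.exp (((As s M y : ℝ) : ℂ) * Complex.I) := by
  induction M using Multiset.induction_on with
  | empty => exact ⟨1, one_pos, by simp [As]⟩
  | cons z M ih =>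
    obtain ⟨ρ, hρ, h⟩ := ih fun w hw => hM w (Multiset.mem_cons_of_mem hw)
    obtain ⟨ρ', hρ', h'⟩ := factor_polar' z y (hM z (Multiset.mem_cons_self z M))
    refine ⟨ρ' * ρ, mul_pos hρ' hρ, ?_⟩
    rw [Multiset.map_cons, Multiset.prod_cons, h, h', As_cons, Multiset.countP_cons, pow_add]
    push_cast
    rw [add_mul, Complex.exp_add]
    ring

lemma factor_lim' {s : ℝ} (z : ℂ) (hz : z.re ≠ -s) :
    Tendsto (fun y : ℝ => Real.arctan ((z.im - y) / (z.re + s))) atTop
      (𝓝 (Real.pi / 2 * (1 - 2 * ((if -s < z.re then 1 else 0 : ℕ) : ℝ)))) ∧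
    Tendsto (fun y : ℝ => Real.arctan ((z.im - y) / (z.re + s))) atBot
      (𝓝 (-(Real.pi / 2 * (1 - 2 * ((if -s < z.re then 1 else 0 : ℕ) : ℝ))))) := by
  rcases lt_or_gt_of_ne hz with h | h
  · have hx : 0 < -(z.re + s) := by linarith
    have h2 : ∀ y : ℝ, Real.arctan ((z.im - y) / (z.re + s)) =
        - Real.arctan ((z.im - y) / (-(z.re + s))) := by
      intro y; rw [div_neg, Real.arctan_neg, neg_neg]
    rw [if_neg (by linarith)]
    constructor
    · simp_rw [h2]
      have := (tend_arctan_top z.im hx).neg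
      simpa using this
    · simp_rw [h2]
      have := (tend_arctan_bot z.im hx).neg
      simpa using this
  · have hx : 0 < z.re + s := by linarith
    rw [if_pos h]
    constructor
    · have := tend_arctan_top z.im hx
      convert this using 2
      push_cast; ring
    · have := tend_arctan_bot z.im hx
      convert this using 2
      push_cast; ring

lemma As_lim {s : ℝ} (M : Multiset ℂ) (hM : ∀ z ∈ M, z.re ≠ -s) :
    Tendsto (As s M) atTop (𝓝 (Real.pi / 2 * ((Multiset.card M : ℝ) -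
      2 * (Multiset.countP (fun z : ℂ => -s < z.re) M : ℝ)))) ∧
    Tendsto (As s M) atBot (𝓝 (-(Real.pi / 2 * ((Multiset.card M : ℝ) -
      2 * (Multiset.countP (fun z : ℂ => -s < z.re) M : ℝ))))) := by
  induction M using Multiset.induction_on with
  | empty =>
    have : As s 0 = fun _ => (0 : ℝ) := by funext y; simp [As]
    rw [this]
    simp
  | cons z M ih =>
    obtain ⟨h1, h2⟩ := ih fun w hw => hM w (Multiset.mem_cons_of_mem hw)
    obtain ⟨h3, h4⟩ := factor_lim' z (hM z (Multiset.mem_cons_self z M))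
    have : As s (z ::ₘ M) = fun y => Real.arctan ((z.im - y) / (z.re + s)) + As s M y := by
      funext y; exact As_cons s z M y
    rw [this, Multiset.countP_cons, Multiset.card_cons]
    constructor
    · convert h3.add h1 using 2
      push_cast; ring
    · convert h4.add h2 using 2
      push_cast; ring

lemma eval_Ds (s : ℝ) (n : ℕ) (c y : ℝ) :
    (D n c).eval ((-(s : ℂ)) + (y : ℂ) * Complex.I) = (-1) ^ n * (qs s n y + c) := by
  unfold D qs
  rw [eval_add, eval_prod, eval_C]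
  have : ∀ j ∈ Finset.range (2 * n), eval ((-(s : ℂ)) + (y : ℂ) * Complex.I) (X - C (j : ℂ)) =
      Complex.I * ((y : ℂ) + (as s j : ℂ) * Complex.I) := by
    intro j _
    rw [eval_sub, eval_X, eval_C]
    unfold as
    push_cast
    linear_combination (-(j : ℂ) - s) * Complex.I_mul_I
  rw [Finset.prod_congr rfl this, Finset.prod_mul_distrib, Finset.prod_const, Finset.card_range,
    pow_mul, Complex.I_sq]
  ring

lemma D_natDegree_monic {n : ℕ} (hn : 1 ≤ n) (c : ℝ) :
    (D n c).Monic ∧ (D n c).natDegree = 2 * n := by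
  have h1 : (∏ j ∈ Finset.range (2 * n), (X - C (j : ℂ))).Monic :=
    monic_prod_of_monic _ _ (fun j _ => monic_X_sub_C _)
  have h2 : (∏ j ∈ Finset.range (2 * n), (X - C (j : ℂ))).natDegree = 2 * n := by
    rw [natDegree_prod_of_monic _ _ (fun j _ => monic_X_sub_C _),
      Finset.sum_congr rfl (fun (j : ℕ) _ => natDegree_X_sub_C (j : ℂ))]
    simp
  have h3 : (C ((-1) ^ n * (c : ℂ))).degree <
      (∏ j ∈ Finset.range (2 * n), (X - C (j : ℂ))).degree := by
    rw [degree_eq_natDegree h1.ne_zero, h2]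
    exact lt_of_le_of_lt degree_C_le (by exact_mod_cast (by omega : 0 < 2 * n))
  refine ⟨h1.add_of_left h3, ?_⟩
  unfold D
  rw [natDegree_add_eq_left_of_degree_lt h3, h2]

lemma eval_roots {n : ℕ} (hn : 1 ≤ n) (c : ℝ) (z : ℂ) :
    (D n c).eval z = ((D n c).roots.map (fun r => z - r)).prod := by
  obtain ⟨h1, h2⟩ := D_natDegree_monic hn c
  have h3 := (IsAlgClosed.splits (D n c)).eq_prod_roots_of_monic h1
  conv_lhs => rw [h3]
  rw [eval_multiset_prod, Multiset.map_map]
  simp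

lemma card_roots' {n : ℕ} (hn : 1 ≤ n) (c : ℝ) : Multiset.card (D n c).roots = 2 * n := by
  obtain ⟨h1, h2⟩ := D_natDegree_monic hn c
  rw [← (IsAlgClosed.splits (D n c)).natDegree_eq_card_roots, h2]

lemma w_polar {s : ℝ} {n : ℕ} (hn : 1 ≤ n) (c y : ℝ) (hroots : ∀ z ∈ (D n c).roots, z.re ≠ -s) :
    ∃ ρ : ℝ, 0 < ρ ∧ qs s n y + c = (-1) ^ (n + cnts s n c) * (ρ : ℂ) *
      Complex.exp (((As s (D n c).roots y : ℝ) : ℂ) * Complex.I) := by
  obtain ⟨ρ, hρ, h⟩ := prod_polar' (D n c).roots y hroots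
  refine ⟨ρ, hρ, ?_⟩
  rw [← eval_roots hn, eval_Ds] at h
  have h1 : (-1 : ℂ)^n * (-1)^n = 1 := by rw [← mul_pow]; simp
  calc qs s n y + c = ((-1)^n * (-1)^n) * (qs s n y + c) := by rw [h1, one_mul]
   _ = (-1)^n * ((-1)^n * (qs s n y + c)) := by ring
   _ = _ := by rw [h, pow_add]; unfold cnts; ring

lemma no_line {s : ℝ} {n : ℕ} (c : ℝ) (h : ∀ y : ℝ, qs s n y + c ≠ 0) :
    ∀ z ∈ (D n c).roots, z.re ≠ -s := by
  intro z hz hre
  have h0 : (D n c).eval z = 0 := (mem_roots'.1 hz).2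
  have hz' : z = (-(s : ℂ)) + (z.im : ℂ) * Complex.I := by
    apply Complex.ext <;> simp [hre]
  rw [hz', eval_Ds] at h0
  rcases mul_eq_zero.1 h0 with h1 | h1
  · exact absurd h1 (pow_ne_zero _ (by norm_num))
  · exact h _ h1

lemma q_neg (s : ℝ) (n : ℕ) (y : ℝ) : qs s n (-y) = (starRingEnd ℂ) (qs s n y) := by
  unfold qs
  rw [map_prod]
  have : ∀ j ∈ Finset.range (2*n), (((-y : ℝ) : ℂ) + (as s j : ℂ) * Complex.I) =
      (-1) * (starRingEnd ℂ) ((y : ℂ) + (as s j : ℂ) * Complex.I) := by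
    intro j _
    apply Complex.ext <;> simp
  rw [Finset.prod_congr rfl this, Finset.prod_mul_distrib]
  simp [pow_mul]

lemma q_zero {s : ℝ} (hs : 0 < s) (n : ℕ) : qs s n 0 = (((-1)^n * Rs s n 0 : ℝ) : ℂ) := by
  unfold qs Rs
  have : ∀ j ∈ Finset.range (2*n), (((0:ℝ) : ℂ) + (as s j : ℂ) * Complex.I) =
      Complex.I * ((√(as s j ^ 2 + 0 ^ 2) : ℝ) : ℂ) := by
    intro j _
    rw [show as s j ^2 + 0^2 = as s j ^ 2 by ring, Real.sqrt_sq (as_pos hs j).le]
    simp [mul_comm]
  rw [Finset.prod_congr rfl this, Finset.prod_mul_distrib, Finset.prod_const, Finset.card_range,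
    pow_mul, Complex.I_sq]
  push_cast
  rfl

lemma q_cont (s : ℝ) (n : ℕ) : Continuous (qs s n) := by
  unfold qs
  fun_prop

lemma w_re {s : ℝ} {n : ℕ} {y : ℝ} (hy : 0 < y) (c : ℝ) :
    (qs s n y + c).re = Rs s n y * Real.cos (Ss s n y) + c := by
  rw [qs_polar s n hy, Complex.add_re, Complex.re_ofReal_mul, Complex.exp_ofReal_mul_I_re,
    Complex.ofReal_re]

lemma w_im {s : ℝ} {n : ℕ} {y : ℝ} (hy : 0 < y) (c : ℝ) :
    (qs s n y + c).im = Rs s n y * Real.sin (Ss s n y) := by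
  rw [qs_polar s n hy, Complex.add_im, Complex.im_ofReal_mul, Complex.exp_ofReal_mul_I_im,
    Complex.ofReal_im, add_zero]

lemma w_slit {s : ℝ} (hs : 0 < s) {n : ℕ} (hn : 1 ≤ n) {γ c : ℝ}
    (hγ : ∀ y, 0 < y → Real.pi ≤ Ss s n y → Rs s n y ≤ γ) (hγ0 : Rs s n 0 ≤ γ) (hc : γ < c) (y : ℝ) :
    qs s n y + c ∈ Complex.slitPlane := by
  have hpos : ∀ y : ℝ, 0 < y → qs s n y + c ∈ Complex.slitPlane := by
    intro y hy
    rw [Complex.mem_slitPlane_iff, w_re hy, w_im hy]
    have hR := Rs_pos hs n y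
    have hR0 := Rs_pos hs n 0
    by_cases hsn : Real.sin (Ss s n y) = 0
    · left
      rcases Real.sin_eq_zero_iff_cos_eq.1 hsn with h1 | h1
      · rw [h1]; linarith
      · have h2 : Real.pi ≤ Ss s n y := by
          by_contra h3
          exact absurd hsn (Real.sin_pos_of_pos_of_lt_pi (Ss_pos hs hn hy) (not_le.1 h3)).ne'
        have h3 := hγ y hy h2
        rw [h1]; linarith
    · right
      exact mul_ne_zero hR.ne' hsn
  rcases lt_trichotomy y 0 with h | h | h
  · have h1 := hpos (-y) (by linarith)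
    rw [q_neg] at h1
    rw [Complex.mem_slitPlane_iff] at h1 ⊢
    simpa using h1
  · subst h
    rw [Complex.mem_slitPlane_iff, q_zero hs]
    left
    rw [Complex.add_re, Complex.ofReal_re, Complex.ofReal_re]
    have hR := Rs_pos hs n 0
    rcases neg_one_pow_eq_or ℝ n with h | h <;> rw [h] <;> linarith
  · exact hpos y h

lemma arg_tend (s : ℝ) {n : ℕ} (hn : 1 ≤ n) (c : ℝ) (l : Filter ℝ) (h0 : ∀ᶠ y in l, y ≠ 0)
    (hl : Tendsto (fun y : ℝ => y⁻¹) l (𝓝 0)) :
    Tendsto (fun y => Complex.arg (qs s n y + c)) l (𝓝 0) := by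
  set g : ℝ → ℂ := fun t => (∏ j ∈ Finset.range (2*n), (1 + (as s j : ℂ) * (t : ℂ) * Complex.I)) +
    c * (t : ℂ) ^ (2 * n) with hg
  have hg0 : g 0 = 1 := by
    simp only [hg]
    simp
    right; omega
  have hgc : Continuous g := by
    simp only [hg]; fun_prop
  have h1 : ContinuousAt (fun t => Complex.arg (g t)) 0 := by
    apply ContinuousAt.comp (g := Complex.arg)
    · rw [hg0]; exact Complex.continuousAt_arg (by simp)
    · exact hgc.continuousAt
  have h2 : Tendsto (fun y => Complex.arg (g y⁻¹)) l (𝓝 0) := by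
    have h3 := h1.tendsto.comp hl
    simp only [hg0, Complex.arg_one] at h3
    exact h3
  apply h2.congr'
  filter_upwards [h0] with y hy
  have hy2 : 0 < y ^ (2 * n) := by
    rw [pow_mul]; positivity
  rw [← Complex.arg_real_mul (g y⁻¹) hy2]
  congr 1
  simp only [hg]
  unfold qs
  rw [mul_add]
  congr 1
  · have : ((y ^ (2 * n) : ℝ) : ℂ) = ∏ j ∈ Finset.range (2 * n), (y : ℂ) := by
      simp
    rw [this, ← Finset.prod_mul_distrib]
    apply Finset.prod_congr rfl
    intro j _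
    have : (y : ℂ) ≠ 0 := by exact_mod_cast hy
    push_cast
    field_simp
  · have h3 : (y : ℂ) ≠ 0 := by exact_mod_cast hy
    have h4 : (y : ℂ) ^ (2 * n) * ((y : ℂ)⁻¹) ^ (2 * n) = 1 := by
      rw [← mul_pow, mul_inv_cancel₀ h3, one_pow]
    push_cast
    linear_combination (c : ℂ) * h4

lemma sin_sub_zero {r ρ α β ε : ℝ} (hε : ε ≠ 0) (hρ : ρ ≠ 0)
    (h : (r : ℂ) * Complex.exp ((α : ℂ) * Complex.I) =
      (ε : ℂ) * (ρ : ℂ) * Complex.exp ((β : ℂ) * Complex.I)) : Real.sin (β - α) = 0 := by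
  have hre := congrArg Complex.re h
  have him := congrArg Complex.im h
  rw [← Complex.ofReal_mul] at hre him
  rw [Complex.re_ofReal_mul, Complex.re_ofReal_mul, Complex.exp_ofReal_mul_I_re,
    Complex.exp_ofReal_mul_I_re] at hre
  rw [Complex.im_ofReal_mul, Complex.im_ofReal_mul, Complex.exp_ofReal_mul_I_im,
    Complex.exp_ofReal_mul_I_im] at him
  have h1 : (ε * ρ) * Real.sin (β - α) = 0 := by
    rw [Real.sin_sub]
    linear_combination (Real.sin α) * hre - (Real.cos α) * him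
  rcases mul_eq_zero.1 h1 with h2 | h2
  · exact absurd h2 (mul_ne_zero hε hρ)
  · exact h2

/-- For `c` above `γ` exactly `n` roots lie to the right of the line. -/
lemma cnt_eq_of_gt {s : ℝ} (hs : 0 < s) {n : ℕ} (hn : 1 ≤ n) {γ c : ℝ}
    (hγ : ∀ y, 0 < y → Real.pi ≤ Ss s n y → Rs s n y ≤ γ) (hγ0 : Rs s n 0 ≤ γ) (hc : γ < c) :
    cnts s n c = n := by
  have hslit := w_slit hs hn hγ hγ0 hc
  have hroots := no_line c (fun y => Complex.slitPlane_ne_zero (hslit y))
  set f : ℝ → ℝ := fun y => As s (D n c).roots y - Complex.arg (qs s n y + c) with hf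
  have hfc : Continuous f := by
    simp only [hf]
    apply (As_cont s _).sub
    rw [continuous_iff_continuousAt]
    intro y
    apply ContinuousAt.comp (g := Complex.arg)
    · exact Complex.continuousAt_arg (hslit y)
    · exact ((q_cont s n).add continuous_const).continuousAt
  have hsin : ∀ y, Real.sin (f y) = 0 := by
    intro y
    obtain ⟨ρ, hρ, h⟩ := w_polar hn c y hroots
    have h1 := Complex.norm_mul_exp_arg_mul_I (qs s n y + c)
    have h2 : (‖qs s n y + c‖ : ℂ) * Complex.exp ((Complex.arg (qs s n y + c) : ℂ) * Complex.I) =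
      ((((-1) ^ (n + cnts s n c) : ℝ)) : ℂ) * (ρ : ℂ) *
        Complex.exp (((As s (D n c).roots y : ℝ) : ℂ) * Complex.I) := by
      rw [h1]
      push_cast
      exact h
    exact sin_sub_zero (pow_ne_zero _ (by norm_num)) hρ.ne' h2
  have hconst := const_of_sin hfc hsin
  obtain ⟨l1, l2⟩ := As_lim (D n c).roots hroots
  have m1 := l1.sub (arg_tend s hn c atTop (eventually_ne_atTop 0) tendsto_inv_atTop_zero)
  have m2 := l2.sub (arg_tend s hn c atBot (eventually_ne_atBot 0) tendsto_inv_atBot_zero)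
  have hf' : f = fun _ => f 0 := by funext y; exact hconst y 0
  have m1' : Tendsto f atTop (𝓝 (f 0)) := by rw [hf']; exact tendsto_const_nhds
  have m2' : Tendsto f atBot (𝓝 (f 0)) := by rw [hf']; exact tendsto_const_nhds
  have e1 := tendsto_nhds_unique m1 m1'
  have e2 := tendsto_nhds_unique m2 m2'
  rw [card_roots' hn] at e1 e2
  have e3 : (n : ℝ) = cnts s n c := by
    unfold cnts
    have hpi := Real.pi_pos
    have : Real.pi * ((n : ℝ) - (Multiset.countP (fun z : ℂ => -s < z.re) (D n c).roots : ℝ)) = 0 := by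
      push_cast at e1 e2
      linarith
    rcases mul_eq_zero.1 this with h | h
    · linarith
    · linarith
  exact_mod_cast e3.symm

lemma w_trig {s : ℝ} {n : ℕ} (hn : 1 ≤ n) (c : ℝ) (hroots : ∀ z ∈ (D n c).roots, z.re ≠ -s)
    (hcnt : cnts s n c = n) (y : ℝ) :
    ∃ ρ : ℝ, 0 < ρ ∧ (qs s n y + c).re = ρ * Real.cos (As s (D n c).roots y) ∧
      (qs s n y + c).im = ρ * Real.sin (As s (D n c).roots y) := by
  obtain ⟨ρ, hρ, h⟩ := w_polar hn c y hroots
  refine ⟨ρ, hρ, ?_⟩
  have h1 : (-1 : ℂ) ^ (n + cnts s n c) = 1 := by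
    rw [hcnt, ← two_mul, pow_mul]; simp
  rw [h, h1, one_mul, Complex.re_ofReal_mul, Complex.im_ofReal_mul,
    Complex.exp_ofReal_mul_I_re, Complex.exp_ofReal_mul_I_im]
  exact ⟨rfl, rfl⟩

lemma As_odd {s : ℝ} {n : ℕ} (hn : 1 ≤ n) (c : ℝ) (hroots : ∀ z ∈ (D n c).roots, z.re ≠ -s)
    (hcnt : cnts s n c = n) : Tendsto (As s (D n c).roots) atTop (𝓝 0) ∧ As s (D n c).roots 0 = 0 := by
  obtain ⟨l1, l2⟩ := As_lim (D n c).roots hroots
  rw [card_roots' hn] at l1 l2
  have hc' : (Multiset.countP (fun z : ℂ => -s < z.re) (D n c).roots : ℝ) = n := by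
    have : (cnts s n c : ℝ) = n := by exact_mod_cast hcnt
    exact this
  rw [hc'] at l1 l2
  have l1' : Tendsto (As s (D n c).roots) atTop (𝓝 0) := by
    convert l1 using 2
    push_cast; ring
  have l2' : Tendsto (As s (D n c).roots) atBot (𝓝 0) := by
    convert l2 using 2
    push_cast; ring
  refine ⟨l1', ?_⟩
  set f : ℝ → ℝ := fun y => As s (D n c).roots y + As s (D n c).roots (-y) with hf
  have hfc : Continuous f := by
    simp only [hf]
    exact (As_cont s _).add ((As_cont s _).comp continuous_neg)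
  have hsin : ∀ y, Real.sin (f y) = 0 := by
    intro y
    obtain ⟨ρ, hρ, hr, hi⟩ := w_trig hn c hroots hcnt y
    obtain ⟨ρ', hρ', hr', hi'⟩ := w_trig hn c hroots hcnt (-y)
    rw [q_neg] at hr' hi'
    simp only [Complex.add_re, Complex.add_im, Complex.conj_re, Complex.conj_im,
      Complex.ofReal_im, add_zero] at hr hi hr' hi'
    simp only [hf]
    rw [Real.sin_add]
    have h1 : ρ * ρ' * (Real.sin (As s (D n c).roots y) * Real.cos (As s (D n c).roots (-y)) +
      Real.cos (As s (D n c).roots y) * Real.sin (As s (D n c).roots (-y))) = 0 := by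
      have e1 : (qs s n y).re + (c : ℂ).re = ρ * Real.cos (As s (D n c).roots y) := hr
      have e3 : (qs s n y).re + (c : ℂ).re = ρ' * Real.cos (As s (D n c).roots (-y)) := hr'
      linear_combination (-(ρ' * Real.cos (As s (D n c).roots (-y)))) * hi -
        (ρ * Real.cos (As s (D n c).roots y)) * hi' - (qs s n y).im * (e3 - e1)
    rcases mul_eq_zero.1 h1 with h2 | h2
    · exact absurd h2 (mul_pos hρ hρ').ne'
    · exact h2
  have hconst := const_of_sin hfc hsin
  have hf' : f = fun _ => f 0 := by funext y; exact hconst y 0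
  have m1 : Tendsto f atTop (𝓝 (f 0)) := by rw [hf']; exact tendsto_const_nhds
  have m2 : Tendsto f atTop (𝓝 (0 + 0)) := l1'.add (l2'.comp tendsto_neg_atTop_atBot)
  have e := tendsto_nhds_unique m1 m2
  simp only [hf, neg_zero] at e
  linarith

/-- For `c < R_s(y)`, `S_s(y) = π`, without roots on the line the number of roots is not `n`. -/
lemma cnt_ne {s : ℝ} (hs : 0 < s) {n : ℕ} (hn : 1 ≤ n) {y₀ c : ℝ} (hy₀ : 0 < y₀) (hS : Ss s n y₀ = Real.pi)
    (hc : c < Rs s n y₀) (hroots : ∀ z ∈ (D n c).roots, z.re ≠ -s) :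
    cnts s n c ≠ n := by
  intro hcnt
  obtain ⟨l1, hA0⟩ := As_odd hn c hroots hcnt
  set B := As s (D n c).roots with hB
  have hBc : Continuous B := As_cont s _
  have hpi := Real.pi_pos
  have hRc : 0 < Rs s n 0 + c := by
    obtain ⟨ρ, hρ, hr, hi⟩ := w_trig hn c hroots hcnt 0
    rw [← hB, hA0, Real.cos_zero, mul_one, q_zero hs, Complex.add_re, Complex.ofReal_re,
      Complex.ofReal_re] at hr
    have hR := Rs_pos hs n 0
    rcases neg_one_pow_eq_or ℝ n with h | h <;> rw [h] at hr <;> linarith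
  -- sign of sin B to the right of y₀
  have hright : ∀ y, y₀ < y → 0 < Real.sin (B y) := by
    intro y hy
    have hy0 : 0 < y := hy₀.trans hy
    obtain ⟨ρ, hρ, hr, hi⟩ := w_trig hn c hroots hcnt y
    rw [w_im hy0] at hi
    have h1 : 0 < Real.sin (Ss s n y) := by
      apply Real.sin_pos_of_pos_of_lt_pi (Ss_pos hs hn hy0)
      rw [← hS]; exact Ss_anti hs hn hy₀ hy
    have h2 : 0 < ρ * Real.sin (B y) := by rw [← hi]; exact mul_pos (Rs_pos hs n y) h1
    exact (mul_pos_iff_of_pos_left hρ).1 h2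
  -- value at y₀
  obtain ⟨ρ, hρ, hr, hi⟩ := w_trig hn c hroots hcnt y₀
  rw [w_re hy₀, hS, Real.cos_pi] at hr
  rw [w_im hy₀, hS, Real.sin_pi, mul_zero] at hi
  have hs0 : Real.sin (B y₀) = 0 := by
    rcases mul_eq_zero.1 hi.symm with h | h
    · exact absurd h hρ.ne'
    · exact h
  have hc0 : Real.cos (B y₀) < 0 := by
    have : ρ * Real.cos (B y₀) < 0 := by rw [← hr]; linarith
    by_contra h
    have := mul_nonneg hρ.le (not_lt.1 h)
    linarith
  have hBy₀ : Real.pi ≤ B y₀ := by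
    by_contra h
    have h := not_le.1 h
    have h2 : B y₀ ≤ -Real.pi := by
      by_contra h2
      have h2 := not_le.1 h2
      rcases lt_trichotomy (B y₀) 0 with h3 | h3 | h3
      · have := Real.sin_neg_of_neg_of_neg_pi_lt h3 h2
        linarith
      · rw [h3, Real.cos_zero] at hc0; linarith
      · have := Real.sin_pos_of_pos_of_lt_pi h3 h
        linarith
    -- find y > y₀ with B y > -π/2
    have h3 : ∀ᶠ y in atTop, -(Real.pi / 2) < B y :=
      l1.eventually (lt_mem_nhds (by linarith))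
    obtain ⟨y2, h4, h5⟩ := (h3.and (eventually_gt_atTop y₀)).exists
    have h6 : -(Real.pi / 2) ∈ Set.Icc (B y₀) (B y2) := ⟨by linarith, h4.le⟩
    obtain ⟨y3, h7, h8⟩ := intermediate_value_Icc h5.le hBc.continuousOn h6
    have h9 : y₀ ≠ y3 := by
      rintro rfl
      linarith
    have := hright y3 (lt_of_le_of_ne h7.1 h9)
    rw [h8, Real.sin_neg, Real.sin_pi_div_two] at this
    linarith
  -- least point with B ≥ π
  set T : Set ℝ := {y | y ∈ Set.Icc 0 y₀ ∧ Real.pi ≤ B y} with hT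
  have hTc : IsCompact T := by
    have : T = Set.Icc 0 y₀ ∩ B ⁻¹' (Set.Ici Real.pi) := by
      ext y; simp [hT]
    rw [this]
    exact isCompact_Icc.inter_right (isClosed_Ici.preimage hBc)
  have hTne : T.Nonempty := ⟨y₀, ⟨hy₀.le, le_rfl⟩, hBy₀⟩
  obtain ⟨y1, hy1, hmin⟩ := hTc.exists_isLeast hTne
  have hy1pos : 0 < y1 := by
    rcases lt_or_eq_of_le hy1.1.1 with h | h
    · exact h
    · exfalso
      have := hy1.2
      rw [← h, hA0] at this
      linarith
  have hlt : ∀ y, 0 ≤ y → y < y1 → B y < Real.pi := by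
    intro y hy hyy
    by_contra h
    have := hmin ⟨⟨hy, hyy.le.trans hy1.1.2⟩, not_lt.1 h⟩
    linarith
  have hB1 : B y1 = Real.pi := by
    apply le_antisymm _ hy1.2
    by_contra h
    have h := not_le.1 h
    have h6 : Real.pi ∈ Set.Icc (B 0) (B y1) := ⟨by rw [hA0]; exact hpi.le, h.le⟩
    obtain ⟨y3, h7, h8⟩ := intermediate_value_Icc hy1pos.le hBc.continuousOn h6
    rcases lt_or_eq_of_le h7.2 with h9 | h9
    · have := hlt y3 h7.1 h9
      linarith
    · rw [h9] at h8; linarith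
  obtain ⟨ρ1, hρ1, hr1, hi1⟩ := w_trig hn c hroots hcnt y1
  rw [← hB, hB1, Real.cos_pi, w_re hy1pos] at hr1
  rw [← hB, hB1, Real.sin_pi, mul_zero, w_im hy1pos] at hi1
  have hsinS : Real.sin (Ss s n y1) = 0 := by
    rcases mul_eq_zero.1 hi1 with h | h
    · exact absurd h (Rs_pos hs n y1).ne'
    · exact h
  have hcosS : Real.cos (Ss s n y1) = -1 := by
    rcases Real.sin_eq_zero_iff_cos_eq.1 hsinS with h | h
    · exfalso
      rw [h] at hr1
      have := Rs_mono s n le_rfl hy1pos.le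
      linarith
    · exact h
  have e1 : ∀ᶠ y in 𝓝[<] y1, Ss s n y < Ss s n y1 + 1 :=
    ((Ss_cont s n hy1pos).eventually (gt_mem_nhds (by linarith))).filter_mono nhdsWithin_le_nhds
  have e2 : ∀ᶠ y in 𝓝[<] y1, 0 < B y :=
    (hBc.continuousAt.eventually (lt_mem_nhds (by rw [hB1]; exact hpi))).filter_mono
      nhdsWithin_le_nhds
  have e3 : ∀ᶠ y in 𝓝[<] y1, 0 < y :=
    (eventually_gt_nhds hy1pos).filter_mono nhdsWithin_le_nhds
  have e4 : ∀ᶠ y in 𝓝[<] y1, y < y1 := eventually_mem_nhdsWithin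
  obtain ⟨y, f1, f2, f3, f4⟩ := (e1.and (e2.and (e3.and e4))).exists
  obtain ⟨ρ2, hρ2, hr2, hi2⟩ := w_trig hn c hroots hcnt y
  rw [w_im f3] at hi2
  have g1 : 0 < Real.sin (B y) := Real.sin_pos_of_pos_of_lt_pi f2 (hlt y f3.le f4)
  have g2 : Ss s n y1 < Ss s n y := Ss_anti hs hn f3 f4
  have g3 : Real.sin (Ss s n y) = - Real.sin (Ss s n y - Ss s n y1) := by
    have : Ss s n y = Ss s n y1 + (Ss s n y - Ss s n y1) := by ring
    conv_lhs => rw [this]
    rw [Real.sin_add, hsinS, hcosS]; ring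
  have g4 : 0 < Real.sin (Ss s n y - Ss s n y1) :=
    Real.sin_pos_of_pos_of_lt_pi (by linarith) (by linarith [Real.pi_gt_three])
  have g5 : 0 < ρ2 * Real.sin (B y) := mul_pos hρ2 g1
  have g6 : 0 < Rs s n y * Real.sin (Ss s n y - Ss s n y1) := mul_pos (Rs_pos hs n y) g4
  rw [← hi2, g3] at g5
  linarith

end

end Pool.Agent.V11174.SA
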