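import Pool.Agent.V11174.SA.Upper

/-!
# The lower bound for `n ≥ 16`
-/

set_option autoImplicit false

namespace Pool.Agent.V11174.SA

open Filter Topology

noncomputable section

lemma arctan_lower {v : ℝ} (hv : 0 ≤ v) :
    v - v ^ 3 / 3 + v ^ 5 / 5 - v ^ 7 / 7 ≤ Real.arctan v := by
  set f : ℝ → ℝ := fun v => Real.arctan v - (v - v ^ 3 / 3 + v ^ 5 / 5 - v ^ 7 / 7) with hf
  have hd : ∀ v : ℝ, HasDerivAt f (1 / (1 + v ^ 2) - (1 - (3 * v ^ 2) / 3 + (5 * v ^ 4) / 5 -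
      (7 * v ^ 6) / 7)) v := by
    intro v
    apply (Real.hasDerivAt_arctan v).sub
    have h3 := (hasDerivAt_pow 3 v).div_const 3
    have h5 := (hasDerivAt_pow 5 v).div_const 5
    have h7 := (hasDerivAt_pow 7 v).div_const 7
    have := (((hasDerivAt_id' v).fun_sub h3).fun_add h5).fun_sub h7
    exact this.congr_deriv (by norm_num)
  have hmono : MonotoneOn f (Set.Ici 0) := by
    apply monotoneOn_of_deriv_nonneg (convex_Ici 0)
    · intro v _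
      exact (hd v).continuousAt.continuousWithinAt
    · intro v _
      exact (hd v).differentiableAt.differentiableWithinAt
    · intro v _
      rw [(hd v).deriv]
      have h1 : 0 < 1 + v ^ 2 := by positivity
      have : 1 / (1 + v ^ 2) - (1 - (3 * v ^ 2) / 3 + (5 * v ^ 4) / 5 - (7 * v ^ 6) / 7) =
          v ^ 8 / (1 + v ^ 2) := by
        field_simp
        ring
      rw [this]
      positivity
  have h0 : f 0 = 0 := by simp [hf]
  have := hmono (by simp : (0 : ℝ) ∈ Set.Ici (0 : ℝ)) (by simpa using hv : v ∈ Set.Ici (0 : ℝ)) hv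
  rw [h0] at this
  simp only [hf] at this
  linarith

lemma log_lower {u : ℝ} (hu : 0 ≤ u) : u - u ^ 2 / 2 ≤ Real.log (1 + u) := by
  have h := Real.le_log_one_add_of_nonneg hu
  have h2 : u - u ^ 2 / 2 ≤ 2 * u / (u + 2) := by
    rw [le_div_iff₀ (by linarith)]
    nlinarith [pow_nonneg hu 3]
  linarith

lemma ps1 (m : ℕ) : ∑ j ∈ Finset.range m, a j = (m : ℝ) ^ 2 / 2 := by
  induction m with
  | zero => simp
  | succ m ih => rw [Finset.sum_range_succ, ih]; unfold a; push_cast; ring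

lemma ps2 (m : ℕ) : ∑ j ∈ Finset.range m, a j ^ 2 = (m : ℝ) ^ 3 / 3 - m / 12 := by
  induction m with
  | zero => simp
  | succ m ih => rw [Finset.sum_range_succ, ih]; unfold a; push_cast; ring

lemma ps3 (m : ℕ) : ∑ j ∈ Finset.range m, a j ^ 3 = (m : ℝ) ^ 4 / 4 - m ^ 2 / 8 := by
  induction m with
  | zero => simp
  | succ m ih => rw [Finset.sum_range_succ, ih]; unfold a; push_cast; ring

lemma ps4 (m : ℕ) : ∑ j ∈ Finset.range m, a j ^ 4 =
    (m : ℝ) ^ 5 / 5 - m ^ 3 / 6 + 7 * m / 240 := by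
  induction m with
  | zero => simp
  | succ m ih => rw [Finset.sum_range_succ, ih]; unfold a; push_cast; ring

lemma ps5 (m : ℕ) : ∑ j ∈ Finset.range m, a j ^ 5 =
    (m : ℝ) ^ 6 / 6 - 5 * m ^ 4 / 24 + 7 * m ^ 2 / 96 := by
  induction m with
  | zero => simp
  | succ m ih => rw [Finset.sum_range_succ, ih]; unfold a; push_cast; ring

lemma ps7 (m : ℕ) : ∑ j ∈ Finset.range m, a j ^ 7 ≤ (m : ℝ) ^ 8 / 8 := by
  induction m with
  | zero => simp
  | succ m ih =>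
    rw [Finset.sum_range_succ]
    have : a m ^ 7 ≤ ((m + 1 : ℕ) : ℝ) ^ 8 / 8 - (m : ℝ) ^ 8 / 8 := by
      unfold a
      have hm : (0 : ℝ) ≤ m := by positivity
      push_cast
      have e : ((m : ℝ) + 1) ^ 8 / 8 - (m : ℝ) ^ 8 / 8 - ((m : ℝ) + 1 / 2) ^ 7 =
          7 * m ^ 6 / 4 * 0 + (((m : ℝ) + 1) ^ 8 / 8 - (m : ℝ) ^ 8 / 8 - ((m : ℝ) + 1 / 2) ^ 7) := by
        ring
      have h2 : 0 ≤ ((m : ℝ) + 1) ^ 8 / 8 - (m : ℝ) ^ 8 / 8 - ((m : ℝ) + 1 / 2) ^ 7 := by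
        ring_nf
        positivity
      linarith
    linarith

/-- Lower bound for the argument sum. -/
lemma S_lower {n : ℕ} {y : ℝ} (hy : 0 < y) :
    let x := y⁻¹
    let N : ℝ := 2 * n
    x * (N ^ 2 / 2) - x ^ 3 / 3 * (N ^ 4 / 4 - N ^ 2 / 8) +
      x ^ 5 / 5 * (N ^ 6 / 6 - 5 * N ^ 4 / 24 + 7 * N ^ 2 / 96) - x ^ 7 / 7 * (N ^ 8 / 8) ≤ S n y := by
  intro x N
  have hx : 0 < x := inv_pos.2 hy
  have h1 : ∑ j ∈ Finset.range (2 * n), (x * a j - x ^ 3 / 3 * a j ^ 3 + x ^ 5 / 5 * a j ^ 5 -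
      x ^ 7 / 7 * a j ^ 7) ≤ S n y := by
    unfold S
    apply Finset.sum_le_sum
    intro j _
    have h2 := arctan_lower (mul_pos (a_pos j) hx).le
    have h3 : a j / y = a j * x := rfl
    rw [h3]
    calc _ = a j * x - (a j * x) ^ 3 / 3 + (a j * x) ^ 5 / 5 - (a j * x) ^ 7 / 7 := by ring
      _ ≤ _ := h2
  rw [Finset.sum_sub_distrib, Finset.sum_add_distrib, Finset.sum_sub_distrib,
    ← Finset.mul_sum, ← Finset.mul_sum, ← Finset.mul_sum, ← Finset.mul_sum, ps1, ps3, ps5] at h1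
  have hN : ((2 * n : ℕ) : ℝ) = N := by simp only [N]; push_cast; ring
  have h7 := ps7 (2 * n)
  rw [hN] at h1 h7
  have h8 : x ^ 7 / 7 * ∑ j ∈ Finset.range (2 * n), a j ^ 7 ≤ x ^ 7 / 7 * (N ^ 8 / 8) :=
    mul_le_mul_of_nonneg_left h7 (by positivity)
  linarith

lemma sumlog_lower {n : ℕ} (x : ℝ) :
    let N : ℝ := 2 * n
    x ^ 2 * (N ^ 3 / 3 - N / 12) - x ^ 4 / 2 * (N ^ 5 / 5 - N ^ 3 / 6 + 7 * N / 240) ≤
      ∑ j ∈ Finset.range (2 * n), Real.log (1 + (a j * x) ^ 2) := by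
  intro N
  have hN : ((2 * n : ℕ) : ℝ) = N := by simp only [N]; push_cast; ring
  have h1 : ∑ j ∈ Finset.range (2 * n), (x ^ 2 * a j ^ 2 - x ^ 4 / 2 * a j ^ 4) ≤
      ∑ j ∈ Finset.range (2 * n), Real.log (1 + (a j * x) ^ 2) := by
    apply Finset.sum_le_sum
    intro j _
    have h2 := log_lower (u := (a j * x) ^ 2) (by positivity)
    calc _ = (a j * x) ^ 2 - ((a j * x) ^ 2) ^ 2 / 2 := by ring
      _ ≤ _ := h2
  rw [Finset.sum_sub_distrib, ← Finset.mul_sum, ← Finset.mul_sum, ps2, ps4, hN] at h1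
  exact h1

lemma log_one_sub_lower {w : ℝ} (h0 : 0 ≤ w) (h1 : w ≤ 1 / 10) :
    -w - w ^ 2 / 2 - (10 / 9) * w ^ 3 ≤ Real.log (1 - w) := by
  have h := Real.abs_log_sub_add_sum_range_le (x := w) (by rw [abs_of_nonneg h0]; linarith) 2
  rw [abs_of_nonneg h0] at h
  simp only [Finset.sum_range_succ, Finset.sum_range_zero] at h
  have h2 := (abs_le.1 h).1
  have h3 : w ^ (2 + 1) / (1 - w) ≤ (10 / 9) * w ^ 3 := by
    rw [div_le_iff₀ (by linarith)]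
    nlinarith [pow_nonneg h0 3]
  norm_num at h2 h3
  linarith

lemma poly_ineq {u z : ℝ} (hz : 0 < z) (hzu : z ≤ u / 1024) (hu : u ≤ 1 / 25) :
    0 ≤ u/6 - z/12 - u^2/15 + u*z/12 - 7*z^2/240 + u^3/28 ∧
    u/6 - z/12 - u^2/15 + u*z/12 - 7*z^2/240 + u^3/28 ≤ u / 6 ∧
    0 < -(u/6 - z/12 - u^2/15 + u*z/12 - 7*z^2/240 + u^3/28)
      - (u/6 - z/12 - u^2/15 + u*z/12 - 7*z^2/240 + u^3/28) ^ 2 / 2
      - (10 / 9) * (u/6 - z/12 - u^2/15 + u*z/12 - 7*z^2/240 + u^3/28) ^ 3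
      + (u / 6 - z / 24 - u ^ 2 / 20 + u * z / 24 - 7 * z ^ 2 / 960) := by
  have hu0 : 0 < u := by linarith
  have h1 : 0 ≤ u/6 - z/12 - u^2/15 + u*z/12 - 7*z^2/240 + u^3/28 := by
    have e1 : u ^ 2 ≤ u / 25 := by nlinarith
    have e2 : z ^ 2 ≤ u / 1024 := by nlinarith
    have e3 : 0 ≤ u * z := by positivity
    have e4 : 0 ≤ u ^ 3 := by positivity
    linarith
  have h2 : u/6 - z/12 - u^2/15 + u*z/12 - 7*z^2/240 + u^3/28 ≤ u / 6 := by
    have e1 : u ^ 3 ≤ u ^ 2 / 25 := by nlinarith [mul_pos hu0 hu0]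
    have e3 : u * z ≤ z / 25 := by nlinarith
    have e4 : 0 ≤ z ^ 2 := by positivity
    have e5 : 0 ≤ u ^ 2 := by positivity
    linarith
  refine ⟨h1, h2, ?_⟩
  set w := u/6 - z/12 - u^2/15 + u*z/12 - 7*z^2/240 + u^3/28 with hw
  have h3 : w ^ 2 ≤ (u / 6) ^ 2 := pow_le_pow_left₀ h1 h2 2
  have h4 : w ^ 3 ≤ (u / 6) ^ 3 := pow_le_pow_left₀ h1 h2 3
  have e1 : u ^ 3 ≤ u ^ 2 / 25 := by nlinarith [mul_pos hu0 hu0]
  have e3 : u * z ≤ z / 25 := by nlinarith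
  have e4 : 0 ≤ z ^ 2 := by positivity
  have e5 : 0 < u ^ 2 := by positivity
  have e6 : w = u/6 - z/12 - u^2/15 + u*z/12 - 7*z^2/240 + u^3/28 := hw
  have e7 : (u / 6) ^ 2 = u ^ 2 / 36 := by ring
  have e8 : (u / 6) ^ 3 = u ^ 3 / 216 := by ring
  rw [e7] at h3
  rw [e8] at h4
  linarith

lemma y_large {n : ℕ} (hn : 16 ≤ n) {y : ℝ} (hy : 0 < y) (hS : S n y = Real.pi) :
    5 * (2 * (n : ℝ)) ≤ y := by
  by_contra h
  have h := not_le.1 h
  have hn' : (16 : ℝ) ≤ n := by exact_mod_cast hn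
  have h1 := S_anti (by omega : 1 ≤ n) hy h
  rw [hS] at h1
  have h2 := S_lower (n := n) (y := 5 * (2 * (n : ℝ))) (by positivity)
  simp only at h2
  have hn0 : (n : ℝ) ≠ 0 := by positivity
  have h3 : (5 * (2 * (n : ℝ)))⁻¹ * ((2 * (n : ℝ)) ^ 2 / 2) - (5 * (2 * (n : ℝ)))⁻¹ ^ 3 / 3 *
      ((2 * (n : ℝ)) ^ 4 / 4 - (2 * (n : ℝ)) ^ 2 / 8) +
      (5 * (2 * (n : ℝ)))⁻¹ ^ 5 / 5 * ((2 * (n : ℝ)) ^ 6 / 6 - 5 * (2 * (n : ℝ)) ^ 4 / 24 +
        7 * (2 * (n : ℝ)) ^ 2 / 96) - (5 * (2 * (n : ℝ)))⁻¹ ^ 7 / 7 * ((2 * (n : ℝ)) ^ 8 / 8) =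
      n / 5 - n / 750 + 1 / (6000 * n) + (n / 46875 - 1 / (150000 * n) + 7 / (12000000 * n ^ 3)) * 1
        - n / 2187500 + 0 := by
    field_simp
    ring
  rw [h3] at h2
  have h4 : Real.pi < 3.15 := Real.pi_lt_d2
  have h5 : 1 / (150000 * (n : ℝ)) ≤ 1 / (6000 * n) := by
    apply one_div_le_one_div_of_le (by positivity)
    nlinarith
  have h6 : 0 < 7 / (12000000 * (n : ℝ) ^ 3) := by positivity
  linarith

/-- The lower bound for `n ≥ 16`. -/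
theorem lower_large {n : ℕ} (hn : 16 ≤ n) {y : ℝ} (hy : 0 < y) (hS : S n y = Real.pi) :
    2 * (n : ℝ) ^ 2 / Real.pi < (R n y) ^ (1 / (2 * (n : ℝ))) := by
  have hn1 : 1 ≤ n := by omega
  have hn' : (16 : ℝ) ≤ n := by exact_mod_cast hn
  have hn0 : (0 : ℝ) < n := by linarith
  have hbig := y_large hn hy hS
  have hSl := S_lower (n := n) hy
  simp only at hSl
  rw [hS] at hSl
  have hLR := log_R hn1 hy
  have hx : 0 < y⁻¹ := inv_pos.2 hy
  have hlog := sumlog_lower (n := n) y⁻¹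
  simp only at hlog
  set x := y⁻¹ with hxdef
  set N : ℝ := 2 * n with hN
  have hN32 : 32 ≤ N := by linarith
  have hN0 : 0 < N := by linarith
  set u := (N * x) ^ 2 with hu
  set z := x ^ 2 with hz
  have hz0 : 0 < z := by positivity
  have hXle : N * x ≤ 1 / 5 := by
    rw [hxdef, ← div_eq_mul_inv, div_le_iff₀ hy]
    linarith
  have hule : u ≤ 1 / 25 := by
    have := pow_le_pow_left₀ (by positivity : 0 ≤ N * x) hXle 2
    rw [hu]; norm_num at this ⊢; exact this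
  have hzu : z ≤ u / 1024 := by
    rw [hu, hz, mul_pow]
    have : (32 : ℝ) ^ 2 ≤ N ^ 2 := pow_le_pow_left₀ (by norm_num) hN32 2
    have := mul_le_mul_of_nonneg_right this (by positivity : 0 ≤ x ^ 2)
    linarith
  obtain ⟨hw0, hw1, hw2⟩ := poly_ineq hz0 hzu hule
  have hw3 := log_one_sub_lower hw0 (by linarith)
  set w := u/6 - z/12 - u^2/15 + u*z/12 - 7*z^2/240 + u^3/28 with hw
  have hpi := Real.pi_pos
  -- 1 - w ≤ 2π/(x N²)
  have h1 : 1 - w ≤ 2 * Real.pi / (x * N ^ 2) := by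
    rw [le_div_iff₀ (by positivity)]
    have : (1 - w) * (x * N ^ 2) = 2 * (x * (N ^ 2 / 2) - x ^ 3 / 3 * (N ^ 4 / 4 - N ^ 2 / 8) +
        x ^ 5 / 5 * (N ^ 6 / 6 - 5 * N ^ 4 / 24 + 7 * N ^ 2 / 96) - x ^ 7 / 7 * (N ^ 8 / 8)) := by
      rw [hw, hu, hz]
      ring
    rw [this]
    linarith
  have h2 : Real.log (1 - w) ≤ Real.log (2 * Real.pi / (x * N ^ 2)) :=
    Real.log_le_log (by linarith) h1
  have h3 : (1 / (4 * (n : ℝ))) * (x ^ 2 * (N ^ 3 / 3 - N / 12) - x ^ 4 / 2 *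
      (N ^ 5 / 5 - N ^ 3 / 6 + 7 * N / 240)) =
      (u / 6 - z / 24 - u ^ 2 / 20 + u * z / 24 - 7 * z ^ 2 / 960) := by
    have : (4 * (n : ℝ)) = 2 * N := by rw [hN]; ring
    rw [this, hu, hz]
    field_simp
    ring
  have h4 : (u / 6 - z / 24 - u ^ 2 / 20 + u * z / 24 - 7 * z ^ 2 / 960) ≤
      (1 / (4 * (n : ℝ))) * ∑ j ∈ Finset.range (2 * n), Real.log (1 + (a j * x) ^ 2) := by
    rw [← h3]
    exact mul_le_mul_of_nonneg_left hlog (by positivity)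
  have h5 : Real.log (2 * Real.pi / (x * N ^ 2)) = Real.log y - Real.log (2 * n ^ 2 / Real.pi) := by
    rw [← Real.log_div hy.ne' (by positivity)]
    congr 1
    rw [hxdef, hN]
    field_simp
  rw [Real.rpow_def_of_pos (R_pos n y), ← Real.log_lt_iff_lt_exp (by positivity),
    mul_comm (Real.log (R n y)), hLR]
  linarith

end

end Pool.Agent.V11174.SA
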