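import Pool.Agent.V11174.SA.Count

/-!
# The upper bound
-/

set_option autoImplicit false

namespace Pool.Agent.V11174.SA

open Filter Topology

noncomputable section

lemma key_ineq {s t : ℝ} (hs : 0 < s) (hs2 : s < Real.pi / 2) (ht : 0 < t)
    (ht2 : t < Real.pi / 2) (hne : s ≠ t) :
    Real.cos s * (s - t) < Real.cos t * Real.sin (s - t) := by
  have hpi := Real.pi_pos
  have hcs : 0 < Real.cos s := Real.cos_pos_of_mem_Ioo ⟨by linarith, hs2⟩
  have hct : 0 < Real.cos t := Real.cos_pos_of_mem_Ioo ⟨by linarith, ht2⟩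
  rcases lt_or_gt_of_ne hne with h | h
  · -- s < t
    have h1 : Real.cos t ≤ Real.cos s := Real.cos_le_cos_of_nonneg_of_le_pi hs.le (by linarith) h.le
    have h2 : Real.sin (t - s) < t - s := Real.sin_lt (by linarith)
    have h3 : 0 < Real.sin (t - s) := Real.sin_pos_of_pos_of_lt_pi (by linarith) (by linarith)
    have h4 : Real.sin (s - t) = - Real.sin (t - s) := by rw [← Real.sin_neg]; congr 1; ring
    rw [h4]
    have h5 : Real.cos t * Real.sin (t - s) < Real.cos s * (t - s) := by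
      calc Real.cos t * Real.sin (t - s) ≤ Real.cos s * Real.sin (t - s) :=
            mul_le_mul_of_nonneg_right h1 h3.le
        _ < Real.cos s * (t - s) := mul_lt_mul_of_pos_left h2 hcs
    linarith
  · -- t < s
    have hu : 0 < s - t := by linarith
    have hu2 : s - t < Real.pi / 2 := by linarith
    have hcu : 0 < Real.cos (s - t) := Real.cos_pos_of_mem_Ioo ⟨by linarith, hu2⟩
    have h1 : s - t < Real.tan (s - t) := Real.lt_tan hu hu2
    have h2 : Real.cos s < Real.cos (s - t) * Real.cos t := by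
      have h3 : Real.cos s = Real.cos ((s - t) + t) := by congr 1; ring
      rw [h3, Real.cos_add]
      have h4 : 0 < Real.sin (s - t) := Real.sin_pos_of_pos_of_lt_pi hu (by linarith)
      have h5 : 0 < Real.sin t := Real.sin_pos_of_pos_of_lt_pi ht (by linarith)
      have := mul_pos h4 h5
      linarith
    have h6 : Real.cos (s - t) * Real.tan (s - t) = Real.sin (s - t) := by
      rw [mul_comm]; exact Real.tan_mul_cos hcu.ne'
    calc Real.cos s * (s - t) < (Real.cos (s - t) * Real.cos t) * (s - t) :=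
          mul_lt_mul_of_pos_right h2 hu
      _ < (Real.cos (s - t) * Real.cos t) * Real.tan (s - t) :=
          mul_lt_mul_of_pos_left h1 (mul_pos hcu hct)
      _ = Real.cos t * (Real.cos (s - t) * Real.tan (s - t)) := by ring
      _ = _ := by rw [h6]

lemma key_eq (s p : ℝ) : Real.cos (Real.arctan p) * Real.sin (s - Real.arctan p) =
    (Real.sin s - p * Real.cos s) / (1 + p ^ 2) := by
  have h1 : 0 < 1 + p ^ 2 := by positivity
  have h2 : 0 < √(1 + p ^ 2) := Real.sqrt_pos.2 h1
  have h3 : √(1 + p ^ 2) ^ 2 = 1 + p ^ 2 := Real.sq_sqrt h1.le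
  rw [Real.sin_sub, Real.cos_arctan, Real.sin_arctan, div_mul_eq_mul_div, one_mul]
  rw [eq_div_iff h1.ne']
  field_simp
  rw [h3]

/-- The mean of the arguments. -/
def sm (n : ℕ) (x : ℝ) : ℝ := (1 / (2 * (n : ℝ))) * ∑ j ∈ Finset.range (2 * n), Real.arctan (a j * x)

def g (n : ℕ) (x : ℝ) : ℝ := Real.log (Real.sin (sm n x)) +
  (1 / (4 * (n : ℝ))) * ∑ j ∈ Finset.range (2 * n), Real.log (1 + (a j * x) ^ 2) - Real.log x

lemma arctan_le_self' {p : ℝ} (hp : 0 ≤ p) : Real.arctan p ≤ p := by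
  have h1 : 0 ≤ Real.arctan p := Real.arctan_nonneg.2 hp
  have := Real.le_tan h1 (Real.arctan_lt_pi_div_two p)
  rwa [Real.tan_arctan] at this

lemma sm_pos {n : ℕ} (hn : 1 ≤ n) {x : ℝ} (hx : 0 < x) : 0 < sm n x := by
  unfold sm
  have hn' : (0 : ℝ) < n := by exact_mod_cast hn
  apply mul_pos (by positivity)
  apply Finset.sum_pos
  · intro j _
    exact Real.arctan_pos.2 (mul_pos (a_pos j) hx)
  · exact ⟨0, by simp; omega⟩

lemma sm_lt {n : ℕ} (hn : 1 ≤ n) (x : ℝ) : sm n x < Real.pi / 2 := by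
  unfold sm
  have hn' : (0 : ℝ) < n := by exact_mod_cast hn
  have h : ∑ j ∈ Finset.range (2 * n), Real.arctan (a j * x) <
      ∑ j ∈ Finset.range (2 * n), Real.pi / 2 := by
    apply Finset.sum_lt_sum_of_nonempty ⟨0, by simp; omega⟩
    intro j _
    exact Real.arctan_lt_pi_div_two _
  rw [Finset.sum_const, Finset.card_range, nsmul_eq_mul] at h
  push_cast at h
  rw [div_mul_eq_mul_div, one_mul, div_lt_iff₀ (by positivity)]
  linarith

lemma sm_deriv (n : ℕ) (x : ℝ) : HasDerivAt (sm n)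
    ((1 / (2 * (n : ℝ))) * ∑ j ∈ Finset.range (2 * n), (1 / (1 + (a j * x) ^ 2)) * a j) x := by
  unfold sm
  apply HasDerivAt.const_mul
  apply HasDerivAt.fun_sum
  intro j _
  have h1 : HasDerivAt (fun x : ℝ => a j * x) (a j) x := by
    simpa using (hasDerivAt_id x).const_mul (a j)
  exact (Real.hasDerivAt_arctan (a j * x)).comp x h1

lemma g_deriv {n : ℕ} (hn : 1 ≤ n) {x : ℝ} (hx : 0 < x) : HasDerivAt (g n)
    (Real.cos (sm n x) * ((1 / (2 * (n : ℝ))) * ∑ j ∈ Finset.range (2 * n), (1 / (1 + (a j * x) ^ 2)) * a j)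
        / Real.sin (sm n x) +
      (1 / (4 * (n : ℝ))) * ∑ j ∈ Finset.range (2 * n), (2 * (a j * x) * a j) / (1 + (a j * x) ^ 2)
      - x⁻¹) x := by
  unfold g
  have hs := sm_pos hn hx
  have hs2 := sm_lt hn x
  have hsin : 0 < Real.sin (sm n x) := Real.sin_pos_of_pos_of_lt_pi hs (by linarith [Real.pi_pos])
  apply HasDerivAt.sub
  · apply HasDerivAt.add
    · exact ((Real.hasDerivAt_sin (sm n x)).comp x (sm_deriv n x)).log hsin.ne'
    · apply HasDerivAt.const_mul
      apply HasDerivAt.fun_sum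
      intro j _
      have h1 : HasDerivAt (fun x : ℝ => a j * x) (a j) x := by
        simpa using (hasDerivAt_id x).const_mul (a j)
      have h2 : HasDerivAt (fun x : ℝ => 1 + (a j * x) ^ 2) (2 * (a j * x) * a j) x := by
        have := (h1.pow 2).const_add 1
        simpa using this
      exact h2.log (by positivity)
  · exact Real.hasDerivAt_log hx.ne'

lemma sum_pos_key {n : ℕ} (hn : 1 ≤ n) {x : ℝ} (hx : 0 < x) :
    0 < ∑ j ∈ Finset.range (2 * n),
      (Real.sin (sm n x) - (a j * x) * Real.cos (sm n x)) / (1 + (a j * x) ^ 2) := by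
  have hs := sm_pos hn hx
  have hs2 := sm_lt hn x
  have hn' : (0 : ℝ) < n := by exact_mod_cast hn
  have hz : ∑ j ∈ Finset.range (2 * n), Real.cos (sm n x) * (sm n x - Real.arctan (a j * x)) = 0 := by
    rw [← Finset.mul_sum, Finset.sum_sub_distrib, Finset.sum_const, Finset.card_range, nsmul_eq_mul]
    have : ((2 * n : ℕ) : ℝ) * sm n x = ∑ j ∈ Finset.range (2 * n), Real.arctan (a j * x) := by
      unfold sm
      push_cast
      rw [← mul_assoc, mul_one_div_cancel (by positivity), one_mul]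
    rw [this, sub_self, mul_zero]
  rw [← hz]
  have hle : ∀ j, Real.cos (sm n x) * (sm n x - Real.arctan (a j * x)) ≤
      (Real.sin (sm n x) - (a j * x) * Real.cos (sm n x)) / (1 + (a j * x) ^ 2) := by
    intro j
    rw [← key_eq]
    by_cases hne : sm n x = Real.arctan (a j * x)
    · rw [← hne]; simp
    · exact (key_ineq hs hs2 (Real.arctan_pos.2 (mul_pos (a_pos j) hx))
        (Real.arctan_lt_pi_div_two _) hne).le
  have hlt : ∃ j ∈ Finset.range (2 * n), Real.cos (sm n x) * (sm n x - Real.arctan (a j * x)) <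
      (Real.sin (sm n x) - (a j * x) * Real.cos (sm n x)) / (1 + (a j * x) ^ 2) := by
    have h01 : Real.arctan (a 0 * x) < Real.arctan (a 1 * x) := by
      apply Real.arctan_strictMono
      apply mul_lt_mul_of_pos_right _ hx
      unfold a; norm_num
    by_cases hne : sm n x = Real.arctan (a 0 * x)
    · refine ⟨1, by simp; omega, ?_⟩
      rw [← key_eq]
      exact key_ineq hs hs2 (Real.arctan_pos.2 (mul_pos (a_pos 1) hx))
        (Real.arctan_lt_pi_div_two _) (by rw [hne]; exact h01.ne)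
    · refine ⟨0, by simp; omega, ?_⟩
      rw [← key_eq]
      exact key_ineq hs hs2 (Real.arctan_pos.2 (mul_pos (a_pos 0) hx))
        (Real.arctan_lt_pi_div_two _) hne
  exact Finset.sum_lt_sum (fun j _ => hle j) hlt

lemma g_anti {n : ℕ} (hn : 1 ≤ n) : StrictAntiOn (g n) (Set.Ioi 0) := by
  apply strictAntiOn_of_deriv_neg (convex_Ioi 0)
  · intro x hx
    exact (g_deriv hn hx).continuousAt.continuousWithinAt
  · intro x hx
    rw [interior_Ioi] at hx
    have hx : 0 < x := hx
    rw [(g_deriv hn hx).deriv]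
    have hs := sm_pos hn hx
    have hs2 := sm_lt hn x
    have hsin : 0 < Real.sin (sm n x) := Real.sin_pos_of_pos_of_lt_pi hs (by linarith [Real.pi_pos])
    have hn' : (0 : ℝ) < n := by exact_mod_cast hn
    have hkey := sum_pos_key hn hx
    have e1 : ∑ j ∈ Finset.range (2 * n),
        (Real.sin (sm n x) - (a j * x) * Real.cos (sm n x)) / (1 + (a j * x) ^ 2) =
        (2 * n) * Real.sin (sm n x) -
        Real.sin (sm n x) * x * (∑ j ∈ Finset.range (2 * n), ((a j * x) * a j) / (1 + (a j * x) ^ 2))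
        - x * Real.cos (sm n x) * ∑ j ∈ Finset.range (2 * n), (1 / (1 + (a j * x) ^ 2)) * a j := by
      have : (2 * (n : ℝ)) * Real.sin (sm n x) = ∑ j ∈ Finset.range (2 * n), Real.sin (sm n x) := by
        rw [Finset.sum_const, Finset.card_range, nsmul_eq_mul]; push_cast; ring
      rw [this, Finset.mul_sum, Finset.mul_sum, ← Finset.sum_sub_distrib, ← Finset.sum_sub_distrib]
      apply Finset.sum_congr rfl
      intro j _
      have : 0 < 1 + (a j * x) ^ 2 := by positivity
      field_simp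
      ring
    have e2 : ∑ j ∈ Finset.range (2 * n), (2 * (a j * x) * a j) / (1 + (a j * x) ^ 2) =
        2 * ∑ j ∈ Finset.range (2 * n), ((a j * x) * a j) / (1 + (a j * x) ^ 2) := by
      rw [Finset.mul_sum]
      apply Finset.sum_congr rfl
      intro j _
      ring
    rw [e2]
    rw [e1] at hkey
    set P := ∑ j ∈ Finset.range (2 * n), ((a j * x) * a j) / (1 + (a j * x) ^ 2)
    set Q := ∑ j ∈ Finset.range (2 * n), (1 / (1 + (a j * x) ^ 2)) * a j
    set ss := Real.sin (sm n x)
    set cc := Real.cos (sm n x)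
    have e3 : cc * (1 / (2 * (n : ℝ)) * Q) / ss + 1 / (4 * (n : ℝ)) * (2 * P) - x⁻¹ =
        -((2 * n) * ss - ss * x * P - x * cc * Q) / (2 * n * ss * x) := by
      field_simp
      ring
    rw [e3, neg_div, neg_lt_zero]
    exact div_pos hkey (by positivity)

lemma sum_a (n : ℕ) : ∑ j ∈ Finset.range (2 * n), a j = 2 * n ^ 2 := by
  have h : ∀ m : ℕ, ∑ j ∈ Finset.range m, a j = (m : ℝ) ^ 2 / 2 := by
    intro m
    induction m with
    | zero => simp
    | succ m ih =>
      rw [Finset.sum_range_succ, ih]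
      unfold a
      push_cast
      ring
  rw [h]
  push_cast
  ring

lemma g_le {n : ℕ} (hn : 1 ≤ n) {x : ℝ} (hx : 0 < x) :
    g n x ≤ Real.log n + (2 * n) ^ 3 * x ^ 2 := by
  have hs := sm_pos hn hx
  have hs2 := sm_lt hn x
  have hn' : (0 : ℝ) < n := by exact_mod_cast hn
  have hsin : 0 < Real.sin (sm n x) := Real.sin_pos_of_pos_of_lt_pi hs (by linarith [Real.pi_pos])
  have h1 : sm n x ≤ n * x := by
    unfold sm
    have : ∑ j ∈ Finset.range (2 * n), Real.arctan (a j * x) ≤ ∑ j ∈ Finset.range (2 * n), a j * x := by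
      apply Finset.sum_le_sum
      intro j _
      exact arctan_le_self' (mul_pos (a_pos j) hx).le
    rw [← Finset.sum_mul, sum_a] at this
    rw [div_mul_eq_mul_div, one_mul, div_le_iff₀ (by positivity)]
    calc _ ≤ _ := this
      _ = _ := by ring
  have h2 : Real.log (Real.sin (sm n x)) ≤ Real.log n + Real.log x := by
    rw [← Real.log_mul hn'.ne' hx.ne']
    apply Real.log_le_log hsin
    exact (Real.sin_lt hs).le.trans h1
  have h3 : ∑ j ∈ Finset.range (2 * n), Real.log (1 + (a j * x) ^ 2) ≤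
      ∑ j ∈ Finset.range (2 * n), (2 * n) ^ 2 * x ^ 2 := by
    apply Finset.sum_le_sum
    intro j hj
    have h4 : Real.log (1 + (a j * x) ^ 2) ≤ (1 + (a j * x) ^ 2) - 1 :=
      Real.log_le_sub_one_of_pos (by positivity)
    have h5 : a j ≤ 2 * n := by
      unfold a
      have : (j : ℝ) + 1 ≤ 2 * n := by exact_mod_cast Finset.mem_range.1 hj
      linarith
    have h6 : a j ^ 2 ≤ (2 * n) ^ 2 := pow_le_pow_left₀ (a_pos j).le h5 2
    have h7 : (a j * x) ^ 2 ≤ (2 * n) ^ 2 * x ^ 2 := by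
      rw [mul_pow]; exact mul_le_mul_of_nonneg_right h6 (by positivity)
    linarith
  rw [Finset.sum_const, Finset.card_range, nsmul_eq_mul] at h3
  have hn1 : (1 : ℝ) ≤ n := by exact_mod_cast hn
  have h8 : (1 / (4 * (n : ℝ))) * ∑ j ∈ Finset.range (2 * n), Real.log (1 + (a j * x) ^ 2) ≤
      (2 * n) ^ 3 * x ^ 2 := by
    rw [div_mul_eq_mul_div, one_mul, div_le_iff₀ (by positivity)]
    calc _ ≤ _ := h3
      _ = (2 * n) ^ 3 * x ^ 2 * 1 := by push_cast; ring
      _ ≤ _ := by
        apply mul_le_mul_of_nonneg_left _ (by positivity)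
        linarith
  unfold g
  linarith

lemma g_lt {n : ℕ} (hn : 1 ≤ n) {x : ℝ} (hx : 0 < x) : g n x < Real.log n := by
  have hn' : (0 : ℝ) < n := by exact_mod_cast hn
  have h1 : g n x < g n (x / 2) :=
    g_anti hn (by simp; linarith : x / 2 ∈ Set.Ioi (0 : ℝ)) (by simpa using hx : x ∈ Set.Ioi (0:ℝ))
      (by linarith)
  apply lt_of_lt_of_le h1
  apply le_of_forall_pos_le_add
  intro ε hε
  set x' := min (x / 2) (√(ε / (2 * n) ^ 3)) with hx'
  have hx'0 : 0 < x' := lt_min (by linarith) (Real.sqrt_pos.2 (by positivity))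
  have h2 : g n (x / 2) ≤ g n x' := by
    rcases eq_or_lt_of_le (min_le_left (x / 2) (√(ε / (2 * n) ^ 3))) with h | h
    · rw [hx', h]
    · exact (g_anti hn (by simpa using hx'0 : x' ∈ Set.Ioi (0:ℝ))
        (by simp; linarith : x / 2 ∈ Set.Ioi (0 : ℝ)) h).le
  have h3 := g_le hn hx'0
  have h4 : x' ^ 2 ≤ ε / (2 * n) ^ 3 := by
    have : x' ≤ √(ε / (2 * n) ^ 3) := min_le_right _ _
    calc x' ^ 2 ≤ √(ε / (2 * n) ^ 3) ^ 2 := pow_le_pow_left₀ hx'0.le this 2
      _ = _ := Real.sq_sqrt (by positivity)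
  have h5 : (2 * n : ℝ) ^ 3 * x' ^ 2 ≤ ε := by
    calc (2 * n : ℝ) ^ 3 * x' ^ 2 ≤ (2 * n : ℝ) ^ 3 * (ε / (2 * n) ^ 3) :=
          mul_le_mul_of_nonneg_left h4 (by positivity)
      _ = ε := by field_simp
  linarith

lemma log_R {n : ℕ} (hn : 1 ≤ n) {y : ℝ} (hy : 0 < y) :
    (1 / (2 * (n : ℝ))) * Real.log (R n y) = Real.log y +
      (1 / (4 * (n : ℝ))) * ∑ j ∈ Finset.range (2 * n), Real.log (1 + (a j * y⁻¹) ^ 2) := by
  have hn' : (0 : ℝ) < n := by exact_mod_cast hn
  unfold R
  rw [Real.log_prod (fun j _ => (Real.sqrt_pos.2 (by have := a_pos j; positivity)).ne')]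
  have : ∀ j ∈ Finset.range (2 * n), Real.log (√(a j ^ 2 + y ^ 2)) =
      (1 / 2) * Real.log (1 + (a j * y⁻¹) ^ 2) + Real.log y := by
    intro j _
    have h1 : a j ^ 2 + y ^ 2 = (1 + (a j * y⁻¹) ^ 2) * y ^ 2 := by
      field_simp; ring
    rw [Real.log_sqrt (by positivity), h1, Real.log_mul (by positivity) (by positivity),
      Real.log_pow]
    push_cast
    ring
  rw [Finset.sum_congr rfl this, Finset.sum_add_distrib, ← Finset.mul_sum, Finset.sum_const,
    Finset.card_range, nsmul_eq_mul]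
  push_cast
  field_simp
  ring

/-- The upper bound. -/
theorem upper {n : ℕ} (hn : 2 ≤ n) {y : ℝ} (hy : 0 < y) (hS : S n y = Real.pi) :
    (R n y) ^ (1 / (2 * (n : ℝ))) < n / Real.sin (Real.pi / (2 * n)) := by
  have hn1 : 1 ≤ n := by omega
  have hn' : (0 : ℝ) < n := by exact_mod_cast hn1
  have h1 := g_lt hn1 (inv_pos.2 hy)
  have hsm : sm n y⁻¹ = Real.pi / (2 * n) := by
    unfold sm
    rw [← hS]
    unfold S
    rw [div_mul_eq_mul_div, one_mul]
    rfl
  unfold g at h1
  rw [hsm, Real.log_inv] at h1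
  have h2 := log_R hn1 hy
  have hn2 : (2 : ℝ) ≤ n := by exact_mod_cast hn
  have hsin : 0 < Real.sin (Real.pi / (2 * n)) := by
    apply Real.sin_pos_of_pos_of_lt_pi (div_pos Real.pi_pos (by positivity))
    rw [div_lt_iff₀ (by positivity)]
    nlinarith [Real.pi_pos]
  rw [Real.rpow_def_of_pos (R_pos n y), ← Real.lt_log_iff_exp_lt (by positivity),
    Real.log_div hn'.ne' hsin.ne', mul_comm, h2]
  linarith

end

end Pool.Agent.V11174.SA
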